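import Mathlib
import Pool.Agent.Lib.MP_60829e_nt.TV.Fine

/-! # Rational isotropic vectors of a quadratic form with values in an extension of the rationals -/

open MvPolynomial Module

namespace Pool.Agent.Lib.MP_3550b5_nt.Iso

variable {K : Type} [Field K] [Algebra ℚ K] {r : ℕ}

/-- The bilinear form with the matrix `G`, for rational vectors. -/
def hf (G : Matrix (Fin r) (Fin r) K) (x y : Fin r → ℚ) : K :=
  ∑ i, ∑ j, algebraMap ℚ K (x i * y j) * G i j

/-- The linear map `t ↦ hf G t x`. -/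
def hfL (G : Matrix (Fin r) (Fin r) K) (x : Fin r → ℚ) : (Fin r → ℚ) →ₗ[ℚ] K where
  toFun t := hf G t x
  map_add' s t := by
    unfold hf
    rw [← Finset.sum_add_distrib]
    refine Finset.sum_congr rfl fun i _ => ?_
    rw [← Finset.sum_add_distrib]
    refine Finset.sum_congr rfl fun j _ => ?_
    rw [Pi.add_apply, add_mul, map_add, add_mul]
  map_smul' c t := by
    show hf G (c • t) x = c • hf G t x
    rw [Algebra.smul_def c (hf G t x)]
    unfold hf
    rw [Finset.mul_sum]
    refine Finset.sum_congr rfl fun i _ => ?_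
    rw [Finset.mul_sum]
    refine Finset.sum_congr rfl fun j _ => ?_
    rw [Pi.smul_apply, smul_eq_mul, mul_assoc, map_mul, mul_assoc]

/-- The rational vectors orthogonal to `x`. -/
def perp (G : Matrix (Fin r) (Fin r) K) (x : Fin r → ℚ) : Submodule ℚ (Fin r → ℚ) :=
  LinearMap.ker (hfL G x)

theorem mem_perp {G : Matrix (Fin r) (Fin r) K} {x t : Fin r → ℚ} :
    t ∈ perp G x ↔ hf G t x = 0 := by
  rw [perp, LinearMap.mem_ker]
  rfl

theorem hf_symm {G : Matrix (Fin r) (Fin r) K} (hG : ∀ i j, G i j = G j i)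
    (x y : Fin r → ℚ) : hf G x y = hf G y x := by
  unfold hf
  rw [Finset.sum_comm]
  refine Finset.sum_congr rfl fun i _ => Finset.sum_congr rfl fun j _ => ?_
  rw [hG, mul_comm (x j)]

/-- The rational quadratic form obtained by applying the functional `f`. -/
noncomputable def qf (G : Matrix (Fin r) (Fin r) K) (f : Dual ℚ K) : MvPolynomial (Fin r) ℚ :=
  ∑ i, ∑ j, f (G i j) • (X i * X j)

theorem eval_qf (G : Matrix (Fin r) (Fin r) K) (f : Dual ℚ K) (x : Fin r → ℚ) :
    eval x (qf G f) = f (hf G x x) := by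
  unfold qf hf
  rw [map_sum, map_sum]
  refine Finset.sum_congr rfl fun i _ => ?_
  rw [map_sum, map_sum]
  refine Finset.sum_congr rfl fun j _ => ?_
  rw [smul_eval, map_mul, eval_X, eval_X, ← Algebra.smul_def, map_smul, smul_eq_mul, mul_comm]

theorem tang_XX {ρ : Type} [Fintype ρ] [DecidableEq ρ] (v x : ρ → ℚ) (i j : ρ) :
    ∑ s, v s * eval x (pderiv s (X i * X j : MvPolynomial ρ ℚ)) =
      v i * x j + x i * v j := by
  have h : ∀ s, v s * eval x (pderiv s (X i * X j : MvPolynomial ρ ℚ)) =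
      (if s = i then v s else 0) * x j + x i * (if s = j then v s else 0) := by
    intro s
    rw [pderiv_mul, map_add, map_mul, map_mul, eval_X, eval_X, pderiv_X, pderiv_X]
    by_cases h1 : s = i <;> by_cases h2 : s = j
    · subst h1; subst h2; simp; ring
    · subst h1; rw [if_pos rfl, if_neg h2, Pi.single_eq_same, Pi.single_eq_of_ne (Ne.symm h2)]
      simp
    · subst h2; rw [if_pos rfl, if_neg h1, Pi.single_eq_same, Pi.single_eq_of_ne (Ne.symm h1)]
      simp; ring
    · rw [if_neg h1, if_neg h2, Pi.single_eq_of_ne (Ne.symm h1), Pi.single_eq_of_ne (Ne.symm h2)]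
      simp
  rw [Finset.sum_congr rfl fun s _ => h s, Finset.sum_add_distrib, ← Finset.sum_mul,
    ← Finset.mul_sum, Finset.sum_ite_eq' Finset.univ i v, Finset.sum_ite_eq' Finset.univ j v,
    if_pos (Finset.mem_univ _), if_pos (Finset.mem_univ _)]

theorem tang_qf (G : Matrix (Fin r) (Fin r) K) (f : Dual ℚ K) (v x : Fin r → ℚ) :
    ∑ s, v s * eval x (pderiv s (qf G f)) = f (hf G v x) + f (hf G x v) := by
  have h1 : ∀ s, v s * eval x (pderiv s (qf G f)) =
      ∑ i, ∑ j, f (G i j) * (v s * eval x (pderiv s (X i * X j : MvPolynomial (Fin r) ℚ))) := by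
    intro s
    unfold qf
    rw [map_sum, map_sum, Finset.mul_sum]
    refine Finset.sum_congr rfl fun i _ => ?_
    rw [map_sum, map_sum, Finset.mul_sum]
    refine Finset.sum_congr rfl fun j _ => ?_
    rw [Derivation.map_smul, smul_eval]
    ring
  rw [Finset.sum_congr rfl fun s _ => h1 s, Finset.sum_comm]
  unfold hf
  rw [map_sum, map_sum, ← Finset.sum_add_distrib]
  refine Finset.sum_congr rfl fun i _ => ?_
  rw [Finset.sum_comm, map_sum, map_sum, ← Finset.sum_add_distrib]
  refine Finset.sum_congr rfl fun j _ => ?_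
  rw [← Finset.mul_sum, tang_XX, ← Algebra.smul_def, ← Algebra.smul_def, map_smul, map_smul,
    smul_eq_mul, smul_eq_mul]
  ring

theorem X_mem_Bx (i : Fin r) : (X i : MvPolynomial (Fin r) ℚ) ∈ MP60829e.TV.Bx ℚ (Fin r) 1 := by
  rw [MP60829e.TV.mem_Bx]
  intro a ha j
  rw [coeff_X] at ha
  split_ifs at ha with h
  · rw [← h]
    by_cases hj : i = j
    · subst hj; simp
    · rw [Finsupp.single_apply, if_neg hj]; exact Nat.zero_le _
  · exact absurd rfl ha

theorem qf_mem_Bx (G : Matrix (Fin r) (Fin r) K) (f : Dual ℚ K) :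
    qf G f ∈ MP60829e.TV.Bx ℚ (Fin r) 2 := by
  unfold qf
  refine Submodule.sum_mem _ fun i _ => Submodule.sum_mem _ fun j _ => Submodule.smul_mem _ _ ?_
  exact MP60829e.TV.mul_mem_Bx (X_mem_Bx i) (X_mem_Bx j)

/-- Rational isotropic vectors in a grid, if the rational orthogonal spaces are small. -/
theorem iso_count (G : Matrix (Fin r) (Fin r) K) (hG : ∀ i j, G i j = G j i) {m : ℕ}
    (hm : ∀ x, x ≠ 0 → hf G x x = 0 → finrank ℚ (perp G x) ≤ m) (S : Finset ℚ)
    (hS : S.Nonempty) (Z : Finset (Fin r → ℚ))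
    (hZ : ∀ x ∈ Z, (∀ i, x i ∈ S) ∧ x ≠ 0 ∧ hf G x x = 0) :
    Z.card ≤ 2 ^ r * (r.factorial * 2 ^ (r - m)) * S.card ^ m := by
  have h := MP60829e.TV.nondeg_fine (K := ℚ) (σ := Fin r) (d := 2) (m := m)
    (E := Submodule.span ℚ (Set.range (qf G)))
    (by
      rw [Submodule.span_le]
      rintro _ ⟨f, rfl⟩
      exact qf_mem_Bx G f) S hS Z (fun c hc => (hZ c hc).1)
    (by
      intro c hc f hf
      induction hf using Submodule.span_induction with
      | mem x hx =>
        obtain ⟨g, rfl⟩ := hx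
        rw [eval_qf, (hZ c hc).2.2, map_zero]
      | zero => exact map_zero _
      | add x y _ _ hx hy => rw [map_add, hx, hy, add_zero]
      | smul a x _ hx => rw [smul_eval, hx, mul_zero])
    (by
      intro c hc
      refine ⟨perp G c, hm c (hZ c hc).2.1 (hZ c hc).2.2, fun v hv => ?_⟩
      rw [mem_perp, ← forall_dual_apply_eq_zero_iff ℚ]
      intro f
      have h1 := hv (qf G f) (Submodule.subset_span ⟨f, rfl⟩)
      rw [tang_qf, hf_symm hG c v] at h1
      linarith)
  rwa [Fintype.card_fin] at h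

end Pool.Agent.Lib.MP_3550b5_nt.Iso
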