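import Mathlib
import Pool.Agent.Lib.MP_60829e_nt.FC.Gen
import Pool.Agent.Lib.MP_3550b5_nt.Iso.Count

/-! # A generic subspace of small codimension contains no rational isotropic vector -/

open MvPolynomial Module Filter

namespace Pool.Agent.Lib.MP_3550b5_nt.Iso

variable {K : Type} [Field K] [Algebra ℚ K] {r : ℕ}

theorem hf_mem_span (G : Matrix (Fin r) (Fin r) K) (x y : Fin r → ℚ) (Z : Finset K)
    (hZ : ∀ i j, G i j ∈ Z) : hf G x y ∈ Submodule.span ℚ (Z : Set K) := by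
  unfold hf
  refine Submodule.sum_mem _ fun i _ => Submodule.sum_mem _ fun j _ => ?_
  rw [← Algebra.smul_def]
  exact Submodule.smul_mem _ _ (Submodule.subset_span (hZ i j))

theorem tang_lin {ρ κ : Type} [Fintype ρ] [DecidableEq ρ] [Fintype κ] (v x : ρ → ℚ)
    (c : κ → ℚ) (i j : κ → ρ) :
    ∑ s, v s * eval x (pderiv s (∑ k, c k • (X (i k) * X (j k)) : MvPolynomial ρ ℚ)) =
      ∑ k, c k * (v (i k) * x (j k) + x (i k) * v (j k)) := by
  have h1 : ∀ s, v s * eval x (pderiv s (∑ k, c k • (X (i k) * X (j k)) : MvPolynomial ρ ℚ)) =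
      ∑ k, c k * (v s * eval x (pderiv s (X (i k) * X (j k) : MvPolynomial ρ ℚ))) := by
    intro s
    rw [map_sum, map_sum, Finset.mul_sum]
    refine Finset.sum_congr rfl fun k _ => ?_
    rw [Derivation.map_smul, smul_eval]
    ring
  rw [Finset.sum_congr rfl fun s _ => h1 s, Finset.sum_comm]
  refine Finset.sum_congr rfl fun k _ => ?_
  rw [← Finset.mul_sum, tang_XX]

/-- If the rational orthogonal space of every rational isotropic vector has dimension at most `m`,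
then outside a hypersurface of the space of `m` linear forms there is no rational isotropic vector
in the common kernel. -/
theorem iso_generic (G : Matrix (Fin r) (Fin r) K) (hG : ∀ i j, G i j = G j i) {m : ℕ}
    (hm : ∀ x, x ≠ 0 → hf G x x = 0 → finrank ℚ (perp G x) ≤ m) :
    ∃ Q : MvPolynomial (Fin m × Fin r) ℚ, Q ≠ 0 ∧ ∀ φ : Fin m × Fin r → ℚ, eval φ Q ≠ 0 →
      ∀ x : Fin r → ℚ, x ≠ 0 → (∀ j, ∑ i, φ (j, i) * x i = 0) → hf G x x ≠ 0 := by
  classical
  by_contra hcon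
  push Not at hcon
  obtain ⟨U, hUB, hU⟩ := MP60829e.FC.exists_ultra (k := ℚ) (I := Fin m × Fin r → ℚ)
    (σ := Fin m × Fin r) (fun a => a)
    {φ | ∃ x : Fin r → ℚ, x ≠ 0 ∧ (∀ j, ∑ i, φ (j, i) * x i = 0) ∧ hf G x x = 0}
    (fun P hP => by
      obtain ⟨φ, h1, x, h2, h3, h4⟩ := hcon P hP
      exact ⟨φ, ⟨x, h2, h3, h4⟩, h1⟩)
  have hch : ∀ φ : Fin m × Fin r → ℚ, ∃ x : Fin r → ℚ, (∃ x : Fin r → ℚ, x ≠ 0 ∧
      (∀ j, ∑ i, φ (j, i) * x i = 0) ∧ hf G x x = 0) →
      x ≠ 0 ∧ (∀ j, ∑ i, φ (j, i) * x i = 0) ∧ hf G x x = 0 := by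
    intro φ
    by_cases h : ∃ x : Fin r → ℚ, x ≠ 0 ∧ (∀ j, ∑ i, φ (j, i) * x i = 0) ∧ hf G x x = 0
    · obtain ⟨x, hx⟩ := h
      exact ⟨x, fun _ => hx⟩
    · exact ⟨0, fun h' => absurd h' h⟩
  choose y hy using hch
  obtain ⟨Z, hZ⟩ : ∃ Z : Finset K, Z = Finset.univ.image fun v : Fin r × Fin r => G v.1 v.2 :=
    ⟨_, rfl⟩
  have hZG : ∀ i j, G i j ∈ Z := fun i j => by
    rw [hZ]; exact Finset.mem_image.2 ⟨(i, j), Finset.mem_univ _, rfl⟩
  obtain ⟨q, f, _, hf'⟩ := MP60829e.TV.exists_forms (⊥ : Submodule ℚ K) Z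
  let P : Fin q ⊕ Fin m → MvPolynomial ((Fin m × Fin r) ⊕ Fin r) ℚ := Sum.elim
    (fun a => ∑ v : Fin r × Fin r, f a (G v.1 v.2) • (X (Sum.inr v.1) * X (Sum.inr v.2)))
    (fun j => ∑ i : Fin r, (1 : ℚ) • (X (Sum.inl (j, i)) * X (Sum.inr i)))
  have hfe : ∀ (a : Fin q) (x z : Fin r → ℚ), f a (hf G x z) =
      ∑ v : Fin r × Fin r, f a (G v.1 v.2) * (x v.1 * z v.2) := by
    intro a x z
    unfold hf
    rw [map_sum, Fintype.sum_prod_type]
    refine Finset.sum_congr rfl fun i _ => ?_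
    rw [map_sum]
    refine Finset.sum_congr rfl fun j _ => ?_
    rw [← Algebra.smul_def, map_smul, smul_eq_mul, mul_comm]
  have hsol : ∀ᶠ a in (U : Filter (Fin m × Fin r → ℚ)), ∀ j,
      eval (Sum.elim a (y a)) (P j) = 0 := by
    refine hUB.mono fun a ha j => ?_
    obtain ⟨h1, h2, h3⟩ := hy a ha
    rcases j with j | j
    · have : eval (Sum.elim a (y a)) (P (Sum.inl j)) = f j (hf G (y a) (y a)) := by
        rw [hfe]
        simp only [P, Sum.elim_inl, map_sum, smul_eval, map_mul, eval_X, Sum.elim_inr]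
      rw [this, h3, map_zero]
    · have : eval (Sum.elim a (y a)) (P (Sum.inr j)) = ∑ i, a (j, i) * y a i := by
        simp only [P, Sum.elim_inr, map_sum, smul_eval, map_mul, eval_X, Sum.elim_inl, one_mul]
      rw [this, h2]
  have hgs := MP60829e.FC.gs_gen U (fun a => a) hU P y hsol
  obtain ⟨φ, hφB, hφ⟩ := (hUB.and hgs).exists
  obtain ⟨hx0, hφx, hxx⟩ := hy φ hφB
  set x := y φ with hxdef
  have htan : ∀ ψ : Fin m × Fin r → ℚ, ∃ η : Fin r → ℚ, η ∈ perp G x ∧
      ∀ j, ∑ i, ψ (j, i) * x i + ∑ i, φ (j, i) * η i = 0 := by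
    intro ψ
    obtain ⟨η, hη⟩ := hφ ψ
    have hη' : ∀ j, ∑ u : (Fin m × Fin r) ⊕ Fin r, Sum.elim ψ η u *
        eval (Sum.elim φ x) (pderiv u (P j)) = 0 := by
      intro j
      rw [Fintype.sum_sum_type]
      exact hη j
    refine ⟨η, ?_, fun j => ?_⟩
    · rw [mem_perp]
      have h0 := hf' (hf G η x) (Submodule.mem_sup_right (hf_mem_span G η x Z hZG)) (fun a => by
        have h1 := hη' (Sum.inl a)
        simp only [P, Sum.elim_inl] at h1
        rw [tang_lin] at h1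
        simp only [Sum.elim_inr] at h1
        have h2 : f a (hf G η x) + f a (hf G x η) = 0 := by
          rw [hfe, hfe, ← Finset.sum_add_distrib, ← h1]
          exact Finset.sum_congr rfl fun v _ => by ring
        rw [hf_symm hG x η] at h2
        linarith)
      exact (Submodule.mem_bot ℚ).1 h0
    · have h1 := hη' (Sum.inr j)
      simp only [P, Sum.elim_inr] at h1
      rw [tang_lin] at h1
      simp only [Sum.elim_inr, Sum.elim_inl, one_mul] at h1
      rw [← Finset.sum_add_distrib, ← h1]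
  -- the dimension count
  let Φ : (Fin r → ℚ) →ₗ[ℚ] (Fin m → ℚ) := Matrix.mulVecLin (Matrix.of fun j i => φ (j, i))
  have hΦ : ∀ η j, Φ η j = ∑ i, φ (j, i) * η i := fun η j => rfl
  obtain ⟨i₀, hi₀⟩ : ∃ i, x i ≠ 0 := by
    by_contra h
    push Not at h
    exact hx0 (funext h)
  have hsurj : ∀ w : Fin m → ℚ, ∃ η ∈ perp G x, Φ η = w := by
    intro w
    obtain ⟨η, hη1, hη2⟩ := htan (fun v => if v.2 = i₀ then - w v.1 / x i₀ else 0)
    refine ⟨η, hη1, ?_⟩
    funext j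
    have h1 := hη2 j
    have h2 : ∑ i, (if i = i₀ then - w j / x i₀ else 0) * x i = - w j := by
      rw [Finset.sum_eq_single i₀]
      · rw [if_pos rfl]; field_simp
      · intro b _ hb; rw [if_neg hb, zero_mul]
      · intro h; exact absurd (Finset.mem_univ _) h
    simp only at h1
    rw [h2] at h1
    rw [hΦ]
    linarith
  have hxp : x ∈ perp G x := mem_perp.2 hxx
  have hrange : LinearMap.range (Φ.domRestrict (perp G x)) = ⊤ := by
    rw [LinearMap.range_eq_top]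
    intro w
    obtain ⟨η, h1, h2⟩ := hsurj w
    exact ⟨⟨η, h1⟩, h2⟩
  have hker : 1 ≤ finrank ℚ (LinearMap.ker (Φ.domRestrict (perp G x))) := by
    rw [Nat.one_le_iff_ne_zero]
    intro h0
    rw [Submodule.finrank_eq_zero] at h0
    have h1 : (⟨x, hxp⟩ : perp G x) ∈ LinearMap.ker (Φ.domRestrict (perp G x)) := by
      rw [LinearMap.mem_ker]
      funext j
      exact hφx j
    rw [h0, Submodule.mem_bot] at h1
    exact hx0 (congrArg Subtype.val h1)
  have hsum := LinearMap.finrank_range_add_finrank_ker (Φ.domRestrict (perp G x))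
  rw [hrange, finrank_top, finrank_fintype_fun_eq_card, Fintype.card_fin] at hsum
  have := hm x hx0 hxx
  omega

end Pool.Agent.Lib.MP_3550b5_nt.Iso
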