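import Mathlib
import Pool.Agent.Lib.MP_3550b5_nt.NMain
import Pool.Agent.Lib.MP_3550b5_nt.Iso.Generic

/-! # Points of `p`-adic height zero -/

open Module

namespace Pool.Agent.Lib.MP_3550b5_nt.Iso

variable {p : ℕ} [hp : Fact p.Prime] {a b : ℤ} {r : ℕ}

lemma clear_den {ι : Type} [Fintype ι] (q : ι → ℚ) :
    ∃ N : ℤ, N ≠ 0 ∧ ∃ z : ι → ℤ, ∀ i, (z i : ℚ) = (N : ℚ) * q i := by
  classical
  refine ⟨∏ i, ((q i).den : ℤ), ?_,
    fun i => (∏ j ∈ Finset.univ.erase i, ((q j).den : ℤ)) * (q i).num, fun i => ?_⟩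
  · rw [Finset.prod_ne_zero_iff]
    intro i _
    exact_mod_cast (q i).den_nz
  · rw [← Finset.mul_prod_erase Finset.univ _ (Finset.mem_univ i)]
    push_cast
    have h1 : (q i) * ((q i).den : ℚ) = (q i).num := Rat.mul_den_eq_num (q i)
    rw [← h1]
    ring

/-- The Gram matrix of a family of points. -/
def gram (Bh : (curve a b).Point → (curve a b).Point → ℚ_[p])
    (P : Fin r → (curve a b).Point) : Matrix (Fin r) (Fin r) ℚ_[p] :=
  Matrix.of fun i j => Bh (P i) (P j)

lemma height_lin {Bh : (curve a b).Point → (curve a b).Point → ℚ_[p]}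
    (hB : IsCanonicalHeight p a b Bh) (P : Fin r → (curve a b).Point) (n n' : Fin r → ℤ) :
    Bh (lin P n) (lin P n') =
      hf (gram Bh P) (fun i => (n i : ℚ)) (fun i => (n' i : ℚ)) := by
  rw [lin_apply, lin_apply, hB.sum]
  unfold hf
  refine Finset.sum_congr rfl fun i _ => ?_
  rw [hB.zsmul, hB.symm, hB.sum, Finset.mul_sum]
  refine Finset.sum_congr rfl fun j _ => ?_
  rw [hB.zsmul, hB.symm, map_mul]
  have h1 : ∀ k : ℤ, algebraMap ℚ ℚ_[p] (k : ℚ) = (k : ℚ_[p]) := fun k => by simp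
  rw [h1, h1]
  show _ = _ * _ * Bh (P i) (P j)
  ring

lemma gram_symm {Bh : (curve a b).Point → (curve a b).Point → ℚ_[p]}
    (hB : IsCanonicalHeight p a b Bh) (P : Fin r → (curve a b).Point) (i j : Fin r) :
    gram Bh P i j = gram Bh P j i := hB.symm _ _

theorem perp_finrank (hp5 : 5 ≤ p) (hΔ : 4 * a ^ 3 + 27 * b ^ 2 ≠ 0)
    {Bh : (curve a b).Point → (curve a b).Point → ℚ_[p]} (hB : IsCanonicalHeight p a b Bh)
    {P : Fin r → (curve a b).Point} (hP : LinearIndependent ℤ P) (x : Fin r → ℚ) (hx : x ≠ 0)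
    (h0 : hf (gram Bh P) x x = 0) : finrank ℚ (perp (gram Bh P) x) ≤ 3 := by
  classical
  set G := gram Bh P with hG
  set d := finrank ℚ (perp G x) with hd
  obtain ⟨e⟩ : Nonempty (Basis (Fin d) ℚ (perp G x)) := ⟨finBasis ℚ (perp G x)⟩
  have hxp : x ∈ perp G x := mem_perp.2 h0
  obtain ⟨N, hN, z, hz⟩ := clear_den fun v : Fin d × Fin r => (e v.1 : Fin r → ℚ) v.2
  obtain ⟨M, hM, w, hw⟩ := clear_den fun k : Fin d => e.repr ⟨x, hxp⟩ k
  have hNq : (N : ℚ) ≠ 0 := by exact_mod_cast hN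
  have hMq : (M : ℚ) ≠ 0 := by exact_mod_cast hM
  obtain ⟨T, hT⟩ : ∃ T : Fin d → Fin r → ℤ, T = fun k i => z (k, i) := ⟨_, rfl⟩
  have hTq : ∀ k, (fun i => (T k i : ℚ)) = (N : ℚ) • (e k : Fin r → ℚ) := by
    intro k
    funext i
    rw [hT]
    exact hz (k, i)
  have hcomb : ∀ c : Fin d → ℤ, (fun i => ((∑ k, c k * T k i : ℤ) : ℚ)) =
      (N : ℚ) • ((∑ k, (c k : ℚ) • e k : perp G x) : Fin r → ℚ) := by
    intro c
    funext i
    rw [Submodule.coe_sum, Pi.smul_apply, Finset.sum_apply, smul_eq_mul, Finset.mul_sum]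
    push_cast
    refine Finset.sum_congr rfl fun k _ => ?_
    have h1 := congrFun (hTq k) i
    simp only [Pi.smul_apply, smul_eq_mul] at h1
    rw [h1, Pi.smul_apply, smul_eq_mul]
    ring
  have hlin : ∀ c : Fin d → ℤ, ∑ k, c k • lin P (T k) = lin P (fun i => ∑ k, c k * T k i) := by
    intro c
    have h1 : (fun i => ∑ k, c k * T k i) = ∑ k, c k • T k := by
      funext i
      rw [Finset.sum_apply]
      exact Finset.sum_congr rfl fun k _ => by rw [Pi.smul_apply, smul_eq_mul]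
    rw [h1, map_sum]
    exact Finset.sum_congr rfl fun k _ => by rw [map_zsmul]
  have hinj : ∀ n : Fin r → ℤ, lin P n = 0 → n = 0 := by
    intro n hn
    rw [lin_apply] at hn
    funext i
    exact Fintype.linearIndependent_iff.mp hP n hn i
  have hindT : ∀ c : Fin d → ℤ, ∑ k, c k • lin P (T k) = 0 → c = 0 := by
    intro c hc
    rw [hlin] at hc
    have h1 := hinj _ hc
    have h2 := hcomb c
    have h3 : (fun i => ((∑ k, c k * T k i : ℤ) : ℚ)) = 0 := by
      funext i
      have := congrFun h1 i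
      simp only [Pi.zero_apply] at this ⊢
      rw [this]
      simp
    rw [h3] at h2
    have h4 : (∑ k, (c k : ℚ) • e k : perp G x) = 0 := by
      apply Subtype.ext
      have h5 := smul_eq_zero.1 h2.symm
      rcases h5 with h5 | h5
      · exact absurd h5 hNq
      · exact h5
    funext k
    have h6 := Fintype.linearIndependent_iff.mp e.linearIndependent (fun k => (c k : ℚ)) h4 k
    exact_mod_cast h6
  have hP' : LinearIndependent ℤ (fun k => lin P (T k)) := by
    rw [Fintype.linearIndependent_iff]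
    intro c hc k
    exact congrFun (hindT c hc) k
  obtain ⟨Q, hQ⟩ : ∃ Q, Q = ∑ k, w k • lin P (T k) := ⟨_, rfl⟩
  have hQv : (∑ k, (w k : ℚ) • e k : perp G x) = (M : ℚ) • ⟨x, hxp⟩ := by
    have h1 : ∀ k, (w k : ℚ) • e k = (M : ℚ) • (e.repr ⟨x, hxp⟩ k • e k) := by
      intro k
      rw [hw, smul_smul]
    rw [Finset.sum_congr rfl fun k _ => h1 k, ← Finset.smul_sum, e.sum_repr]
  have hQind : LinearIndependent ℤ (fun _ : Fin 1 => Q) := by
    rw [Fintype.linearIndependent_iff]
    intro c hc k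
    rw [Fin.sum_univ_one] at hc
    have hk : k = 0 := Subsingleton.elim _ _
    rw [hk]
    by_contra hne
    rw [hQ, Finset.smul_sum] at hc
    have h1 := hindT (fun k => c 0 * w k) (by
      rw [← hc]
      exact Finset.sum_congr rfl fun k _ => by rw [mul_smul])
    have h2 : ∀ k, w k = 0 := fun k =>
      (mul_eq_zero.mp (congrFun h1 k)).resolve_left hne
    have h3 : (M : ℚ) • (⟨x, hxp⟩ : perp G x) = 0 := by
      rw [← hQv]
      apply Finset.sum_eq_zero
      intro k _
      rw [h2 k]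
      simp
    have h4 := (smul_eq_zero.1 h3).resolve_left hMq
    exact hx (congrArg Subtype.val h4)
  have horth : ∀ k (_ : Fin 1), Bh (lin P (T k)) Q = 0 := by
    intro k _
    rw [hQ, hlin, height_lin hB, hcomb, hQv, ← hG]
    have h1 : hf G (fun i => ((T k i : ℤ) : ℚ)) ((N : ℚ) • ((M : ℚ) • x)) = 0 := by
      have h2 : ∀ (c : ℚ) (u v : Fin r → ℚ), hf G u (c • v) = c • hf G u v := by
        intro c u v
        rw [hf_symm (gram_symm hB P), hf_symm (gram_symm hB P) u v]
        exact (hfL G u).map_smul c v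
      rw [h2, h2, hTq]
      have h3 : hf G ((N : ℚ) • (e k : Fin r → ℚ)) x = 0 := by
        rw [← mem_perp]
        exact Submodule.smul_mem _ _ (e k).2
      rw [h3, smul_zero, smul_zero]
    exact h1
  have hfin := orth_bound hp5 hΔ hB (r := d) (s := 1) (P := fun k => lin P (T k)) hP'
    (Q := fun _ => Q) hQind (fun _ => by
      rw [hQ]
      exact Submodule.sum_mem _ fun k _ =>
        Submodule.smul_mem _ _ (Submodule.subset_span ⟨k, rfl⟩)) horth
  omega

end Pool.Agent.Lib.MP_3550b5_nt.Iso
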