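import Mathlib
import Pool.Agent.Lib.MP_3550b5_nt.Iso.Height

/-! # Points of `p`-adic height zero: final statements -/

open Module MvPolynomial

namespace Pool.Agent.Lib.MP_3550b5_nt.Iso

variable {p : ℕ} [hp : Fact p.Prime] {a b : ℤ} {r : ℕ}

theorem iso_forms (hp5 : 5 ≤ p) (hΔ : 4 * a ^ 3 + 27 * b ^ 2 ≠ 0)
    {Bh : (curve a b).Point → (curve a b).Point → ℚ_[p]} (hB : IsCanonicalHeight p a b Bh)
    {P : Fin r → (curve a b).Point} (hP : LinearIndependent ℤ P) :
    ∃ F : MvPolynomial (Fin 3 × Fin r) ℚ, F ≠ 0 ∧ ∀ φ : Fin 3 × Fin r → ℤ,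
      eval (fun v => (φ v : ℚ)) F ≠ 0 → ∀ x : Fin r → ℤ, x ≠ 0 →
        (∀ j, ∑ i, φ (j, i) * x i = 0) → Bh (∑ i, x i • P i) (∑ i, x i • P i) ≠ 0 := by
  obtain ⟨F, hF, h⟩ := iso_generic (gram Bh P) (gram_symm hB P)
    (m := 3) (fun x hx h0 => perp_finrank hp5 hΔ hB hP x hx h0)
  refine ⟨F, hF, fun φ hφ x hx hφx => ?_⟩
  have h1 := h (fun v => (φ v : ℚ)) hφ (fun i => (x i : ℚ))
    (by
      intro h0
      apply hx
      funext i
      have := congrFun h0 i
      simpa using this)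
    (fun j => by exact_mod_cast hφx j)
  rwa [← height_lin hB P x x, lin_apply] at h1

theorem iso_grid (hp5 : 5 ≤ p) (hΔ : 4 * a ^ 3 + 27 * b ^ 2 ≠ 0)
    {Bh : (curve a b).Point → (curve a b).Point → ℚ_[p]} (hB : IsCanonicalHeight p a b Bh)
    {P : Fin r → (curve a b).Point} (hP : LinearIndependent ℤ P) (S : Finset ℤ)
    (hS : S.Nonempty) :
    {x : Fin r → ℤ | (∀ i, x i ∈ S) ∧ x ≠ 0 ∧
      Bh (∑ i, x i • P i) (∑ i, x i • P i) = 0}.ncard ≤
        2 ^ r * (r.factorial * 2 ^ (r - 3)) * S.card ^ 3 := by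
  classical
  set A : Set (Fin r → ℤ) := {x | (∀ i, x i ∈ S) ∧ x ≠ 0 ∧
    Bh (∑ i, x i • P i) (∑ i, x i • P i) = 0} with hA
  have hfin : A.Finite := by
    refine (Fintype.piFinset fun _ : Fin r => S).finite_toSet.subset fun x hx => ?_
    rw [Finset.mem_coe, Fintype.mem_piFinset]
    exact hx.1
  let c : (Fin r → ℤ) → (Fin r → ℚ) := fun x i => (x i : ℚ)
  have hc : Function.Injective c := by
    intro x y h
    funext i
    have := congrFun h i
    simp only [c] at this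
    exact_mod_cast this
  have h := iso_count (gram Bh P) (gram_symm hB P) (m := 3)
    (fun x hx h0 => perp_finrank hp5 hΔ hB hP x hx h0)
    (S.map ⟨fun z : ℤ => (z : ℚ), Int.cast_injective⟩) (by simpa using hS)
    (hfin.toFinset.map ⟨c, hc⟩) (by
      intro y hy
      rw [Finset.mem_map] at hy
      obtain ⟨x, hx, rfl⟩ := hy
      rw [Set.Finite.mem_toFinset] at hx
      obtain ⟨h1, h2, h3⟩ := hx
      refine ⟨fun i => ?_, ?_, ?_⟩
      · rw [Finset.mem_map]
        exact ⟨x i, h1 i, rfl⟩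
      · intro h0
        apply h2
        apply hc
        rw [show c x = 0 from h0]
        funext i
        simp [c]
      · rw [← lin_apply, height_lin hB] at h3
        exact h3)
  rw [Finset.card_map, Finset.card_map] at h
  rwa [Set.ncard_eq_toFinset_card A hfin]

end Pool.Agent.Lib.MP_3550b5_nt.Iso
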