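import Mathlib
import Pool.Agent.Lib.MP_60829e_nt.FC.Gen
import Pool.Agent.Lib.MP_3550b5_nt.Iso.Generic

/-! # A generic subspace of small codimension contains no rational plane with a singular Gram
matrix -/

open MvPolynomial Module Filter

namespace Pool.Agent.Lib.MP_3550b5_nt.Iso

variable {K : Type} [Field K] [Algebra ℚ K] {r : ℕ}

/-- The pairs `(v 0, v 1)` tangent at `(x, y)` to the vanishing of the Gram determinant. -/
def ptan (G : Matrix (Fin r) (Fin r) K) (x y : Fin r → ℚ) : Submodule ℚ (Fin 2 → Fin r → ℚ) :=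
  LinearMap.ker
    ((LinearMap.mulRight ℚ (hf G y y)).comp ((hfL G x).comp (LinearMap.proj 0)) +
      (LinearMap.mulRight ℚ (hf G x x)).comp ((hfL G y).comp (LinearMap.proj 1)) -
      (LinearMap.mulRight ℚ (hf G x y)).comp ((hfL G y).comp (LinearMap.proj 0) +
        (hfL G x).comp (LinearMap.proj 1)))

theorem mem_ptan {G : Matrix (Fin r) (Fin r) K} {x y : Fin r → ℚ} {v : Fin 2 → Fin r → ℚ} :
    v ∈ ptan G x y ↔ hf G (v 0) x * hf G y y + hf G (v 1) y * hf G x x -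
      (hf G (v 0) y + hf G (v 1) x) * hf G x y = 0 := by
  rw [ptan, LinearMap.mem_ker]
  rfl

/-- The derivative of a polynomial at `x` in the direction `v`. -/
private noncomputable def pgT {ρ : Type} [Fintype ρ] (v x : ρ → ℚ) (p : MvPolynomial ρ ℚ) : ℚ :=
  ∑ s, v s * eval x (pderiv s p)

private theorem pgT_mul {ρ : Type} [Fintype ρ] (v x : ρ → ℚ) (p q : MvPolynomial ρ ℚ) :
    pgT v x (p * q) = pgT v x p * eval x q + eval x p * pgT v x q := by
  unfold pgT
  rw [Finset.sum_mul, Finset.mul_sum, ← Finset.sum_add_distrib]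
  refine Finset.sum_congr rfl fun s _ => ?_
  rw [pderiv_mul, map_add, map_mul, map_mul]
  ring

private theorem pgT_X {ρ : Type} [Fintype ρ] [DecidableEq ρ] (v x : ρ → ℚ) (i : ρ) :
    pgT v x (X i) = v i := by
  unfold pgT
  rw [Finset.sum_eq_single i]
  · rw [pderiv_X_self, map_one, mul_one]
  · intro s _ hs
    rw [pderiv_X_of_ne hs.symm, map_zero, mul_zero]
  · intro h
    exact absurd (Finset.mem_univ _) h

private theorem pgT_sub {ρ : Type} [Fintype ρ] (v x : ρ → ℚ) (p q : MvPolynomial ρ ℚ) :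
    pgT v x (p - q) = pgT v x p - pgT v x q := by
  unfold pgT
  rw [← Finset.sum_sub_distrib]
  refine Finset.sum_congr rfl fun s _ => ?_
  rw [map_sub, map_sub, mul_sub]

private theorem pgT_smul {ρ : Type} [Fintype ρ] (v x : ρ → ℚ) (c : ℚ) (p : MvPolynomial ρ ℚ) :
    pgT v x (c • p) = c * pgT v x p := by
  unfold pgT
  rw [Finset.mul_sum]
  refine Finset.sum_congr rfl fun s _ => ?_
  rw [Derivation.map_smul, smul_eval]
  ring

private theorem pgT_sum {ρ κ : Type} [Fintype ρ] (s : Finset κ) (v x : ρ → ℚ)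
    (p : κ → MvPolynomial ρ ℚ) : pgT v x (∑ k ∈ s, p k) = ∑ k ∈ s, pgT v x (p k) := by
  unfold pgT
  rw [Finset.sum_comm]
  refine Finset.sum_congr rfl fun t _ => ?_
  rw [map_sum, map_sum, Finset.mul_sum]

private theorem pg_hf (G : Matrix (Fin r) (Fin r) K) (a b : Fin r → ℚ) :
    hf G a b = ∑ w : Fin r × Fin r, (a w.1 * b w.2) • G w.1 w.2 := by
  unfold hf
  rw [Fintype.sum_prod_type]
  refine Finset.sum_congr rfl fun i _ => Finset.sum_congr rfl fun j _ => ?_
  rw [Algebra.smul_def]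

private theorem pg_hf2 (G : Matrix (Fin r) (Fin r) K) (a b c d : Fin r → ℚ) :
    hf G a b * hf G c d = ∑ w : (Fin r × Fin r) × (Fin r × Fin r),
      (a w.1.1 * b w.1.2 * (c w.2.1 * d w.2.2)) • (G w.1.1 w.1.2 * G w.2.1 w.2.2) := by
  rw [pg_hf, pg_hf, Finset.sum_mul_sum, ← Finset.sum_product', Finset.univ_product_univ]
  refine Finset.sum_congr rfl fun w _ => ?_
  rw [smul_mul_smul_comm]

private theorem pg_f4 (G : Matrix (Fin r) (Fin r) K) (f : K →ₗ[ℚ] ℚ) (a b c d : Fin r → ℚ) :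
    f (hf G a b * hf G c d) = ∑ w : (Fin r × Fin r) × (Fin r × Fin r),
      f (G w.1.1 w.1.2 * G w.2.1 w.2.2) * (a w.1.1 * b w.1.2 * (c w.2.1 * d w.2.2)) := by
  rw [pg_hf2, map_sum]
  refine Finset.sum_congr rfl fun w _ => ?_
  rw [map_smul, smul_eq_mul, mul_comm]

private theorem pg_mem (G : Matrix (Fin r) (Fin r) K) (Z : Finset K)
    (hZ : ∀ i j k l, G i j * G k l ∈ Z) (a b c d : Fin r → ℚ) :
    hf G a b * hf G c d ∈ Submodule.span ℚ (Z : Set K) := by
  rw [pg_hf2]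
  refine Submodule.sum_mem _ fun w _ => ?_
  exact Submodule.smul_mem _ _ (Submodule.subset_span (hZ _ _ _ _))

/-- the value of the quartic form -/
private theorem pg_eval {ρ : Type} (G : Matrix (Fin r) (Fin r) K) (f : K →ₗ[ℚ] ℚ)
    (i₁ i₂ : Fin r → ρ) (z : ρ → ℚ) :
    eval z (∑ w : (Fin r × Fin r) × (Fin r × Fin r), f (G w.1.1 w.1.2 * G w.2.1 w.2.2) •
      (X (i₁ w.1.1) * X (i₁ w.1.2) * (X (i₂ w.2.1) * X (i₂ w.2.2)) -
        X (i₁ w.1.1) * X (i₂ w.1.2) * (X (i₁ w.2.1) * X (i₂ w.2.2)) : MvPolynomial ρ ℚ)) =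
      f (hf G (fun i => z (i₁ i)) (fun i => z (i₁ i)) * hf G (fun i => z (i₂ i)) (fun i => z (i₂ i)))
        - f (hf G (fun i => z (i₁ i)) (fun i => z (i₂ i)) *
          hf G (fun i => z (i₁ i)) (fun i => z (i₂ i))) := by
  rw [pg_f4, pg_f4, map_sum, ← Finset.sum_sub_distrib]
  refine Finset.sum_congr rfl fun w _ => ?_
  simp only [smul_eval, map_sub, map_mul, eval_X]
  ring

/-- the derivative of the quartic form -/
private theorem pg_tan {ρ : Type} [Fintype ρ] [DecidableEq ρ] (G : Matrix (Fin r) (Fin r) K)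
    (hG : ∀ i j, G i j = G j i) (f : K →ₗ[ℚ] ℚ) (i₁ i₂ : Fin r → ρ) (v z : ρ → ℚ)
    {x y a b : Fin r → ℚ} (hx : x = fun i => z (i₁ i)) (hy : y = fun i => z (i₂ i))
    (ha : a = fun i => v (i₁ i)) (hb : b = fun i => v (i₂ i)) :
    pgT v z (∑ w : (Fin r × Fin r) × (Fin r × Fin r), f (G w.1.1 w.1.2 * G w.2.1 w.2.2) •
      (X (i₁ w.1.1) * X (i₁ w.1.2) * (X (i₂ w.2.1) * X (i₂ w.2.2)) -
        X (i₁ w.1.1) * X (i₂ w.1.2) * (X (i₁ w.2.1) * X (i₂ w.2.2)) : MvPolynomial ρ ℚ)) =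
      2 * f (hf G a x * hf G y y + hf G b y * hf G x x - (hf G a y + hf G b x) * hf G x y) := by
  have h1 : 2 * f (hf G a x * hf G y y + hf G b y * hf G x x - (hf G a y + hf G b x) * hf G x y) =
      f (hf G a x * hf G y y) + f (hf G x a * hf G y y) + f (hf G x x * hf G b y) +
        f (hf G x x * hf G y b) - (f (hf G a y * hf G x y) + f (hf G x b * hf G x y) +
          f (hf G x y * hf G a y) + f (hf G x y * hf G x b)) := by
    rw [hf_symm hG x a, hf_symm hG y b, hf_symm hG x b, mul_comm (hf G x y) (hf G a y),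
      mul_comm (hf G x y) (hf G b x), mul_comm (hf G x x) (hf G b y), add_mul, map_sub, map_add,
      map_add]
    ring
  rw [h1]
  simp only [pg_f4]
  rw [pgT_sum]
  simp only [← Finset.sum_add_distrib, ← Finset.sum_sub_distrib]
  refine Finset.sum_congr rfl fun w _ => ?_
  rw [pgT_smul, pgT_sub]
  simp only [pgT_mul, pgT_X, map_mul, eval_X, hx, hy, ha, hb]
  ring

/-- a dual basis -/
private theorem pg_dual {x y : Fin r → ℚ} (h : LinearIndependent ℚ ![x, y]) :
    ∃ a b : Fin r → ℚ, ∑ i, a i * x i = 1 ∧ ∑ i, a i * y i = 0 ∧ ∑ i, b i * x i = 0 ∧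
      ∑ i, b i * y i = 1 := by
  classical
  have h1 : LinearMap.ker (Fintype.linearCombination ℚ ![x, y]) = ⊥ := by
    rw [LinearMap.ker_eq_bot]
    exact linearIndependent_iff_injective_fintypeLinearCombination.1 h
  obtain ⟨g, hg⟩ := LinearMap.exists_leftInverse_of_injective _ h1
  have hgx : g x = Pi.single 0 1 := by
    have h2 := LinearMap.congr_fun hg (Pi.single 0 1)
    rw [LinearMap.comp_apply, Fintype.linearCombination_apply_single] at h2
    simpa using h2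
  have hgy : g y = Pi.single 1 1 := by
    have h2 := LinearMap.congr_fun hg (Pi.single 1 1)
    rw [LinearMap.comp_apply, Fintype.linearCombination_apply_single] at h2
    simpa using h2
  have key : ∀ (u : Fin r → ℚ) (e : Fin 2), ∑ i, g (Pi.single i 1) e * u i = g u e := by
    intro u e
    have h2 := congrFun (LinearMap.pi_apply_eq_sum_univ g u) e
    rw [h2, Finset.sum_apply]
    refine Finset.sum_congr rfl fun i _ => ?_
    have h3 : (fun j => if i = j then (1 : ℚ) else 0) = Pi.single i 1 := by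
      funext j
      rw [Pi.single_apply]
      simp only [eq_comm]
    rw [Pi.smul_apply, smul_eq_mul, mul_comm, h3]
  refine ⟨fun i => g (Pi.single i 1) 0, fun i => g (Pi.single i 1) 1, ?_, ?_, ?_, ?_⟩
  · rw [key, hgx]
    simp
  · rw [key, hgy]
    simp
  · rw [key, hgx]
    simp
  · rw [key, hgy]
    simp

/-- If at every rational plane with a singular Gram matrix and without rational isotropic vectors
the rational tangent space has dimension at most `2 m + 3`, then outside a hypersurface of the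
space of `m` linear forms there is no such rational plane in the common kernel. -/
theorem pair_generic (G : Matrix (Fin r) (Fin r) K) (hG : ∀ i j, G i j = G j i) {m : ℕ}
    (hm : ∀ x y : Fin r → ℚ, LinearIndependent ℚ ![x, y] → hf G x x * hf G y y = hf G x y ^ 2 →
      (∀ c d : ℚ, (c ≠ 0 ∨ d ≠ 0) → hf G (c • x + d • y) (c • x + d • y) ≠ 0) →
      finrank ℚ (ptan G x y) ≤ 2 * m + 3) :
    ∃ Q : MvPolynomial (Fin m × Fin r) ℚ, Q ≠ 0 ∧ ∀ φ : Fin m × Fin r → ℚ, eval φ Q ≠ 0 →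
      ∀ x y : Fin r → ℚ, LinearIndependent ℚ ![x, y] → (∀ j, ∑ i, φ (j, i) * x i = 0) →
        (∀ j, ∑ i, φ (j, i) * y i = 0) →
        (∀ c d : ℚ, (c ≠ 0 ∨ d ≠ 0) → hf G (c • x + d • y) (c • x + d • y) ≠ 0) →
        hf G x x * hf G y y ≠ hf G x y ^ 2 := by
  classical
  by_contra hcon
  push Not at hcon
  obtain ⟨Bad, hBad⟩ : ∃ Bad : (Fin m × Fin r → ℚ) → (Fin 2 × Fin r → ℚ) → Prop,
      ∀ φ z, Bad φ z ↔ (LinearIndependent ℚ ![fun i => z (0, i), fun i => z (1, i)] ∧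
        (∀ j, ∑ i, φ (j, i) * z (0, i) = 0) ∧ (∀ j, ∑ i, φ (j, i) * z (1, i) = 0) ∧
        (∀ c d : ℚ, (c ≠ 0 ∨ d ≠ 0) → hf G (c • (fun i => z (0, i)) + d • (fun i => z (1, i)))
          (c • (fun i => z (0, i)) + d • (fun i => z (1, i))) ≠ 0) ∧
        hf G (fun i => z (0, i)) (fun i => z (0, i)) * hf G (fun i => z (1, i)) (fun i => z (1, i)) =
          hf G (fun i => z (0, i)) (fun i => z (1, i)) ^ 2) := ⟨_, fun _ _ => Iff.rfl⟩
  obtain ⟨U, hUB, hU⟩ := MP60829e.FC.exists_ultra (k := ℚ) (I := Fin m × Fin r → ℚ)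
    (σ := Fin m × Fin r) (fun a => a) {φ | ∃ z, Bad φ z}
    (fun P hP => by
      obtain ⟨φ, h1, x, y, h2, h3, h4, h5, h6⟩ := hcon P hP
      exact ⟨φ, ⟨fun t => ![x, y] t.1 t.2, (hBad _ _).2 ⟨h2, h3, h4, h5, h6⟩⟩, h1⟩)
  have hch : ∀ φ : Fin m × Fin r → ℚ, ∃ z : Fin 2 × Fin r → ℚ, (∃ z, Bad φ z) → Bad φ z := by
    intro φ
    by_cases h : ∃ z, Bad φ z
    · obtain ⟨z, hz⟩ := h
      exact ⟨z, fun _ => hz⟩
    · exact ⟨0, fun h' => absurd h' h⟩
  choose y hy using hch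
  obtain ⟨Z, hZ⟩ : ∃ Z : Finset K, Z = Finset.univ.image
      fun v : (Fin r × Fin r) × (Fin r × Fin r) => G v.1.1 v.1.2 * G v.2.1 v.2.2 := ⟨_, rfl⟩
  have hZG : ∀ i j k l, G i j * G k l ∈ Z := fun i j k l => by
    rw [hZ]
    exact Finset.mem_image.2 ⟨((i, j), (k, l)), Finset.mem_univ _, rfl⟩
  obtain ⟨q, f, _, hf'⟩ := MP60829e.TV.exists_forms (⊥ : Submodule ℚ K) Z
  let P : Fin q ⊕ (Fin 2 × Fin m) → MvPolynomial ((Fin m × Fin r) ⊕ (Fin 2 × Fin r)) ℚ := Sum.elim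
    (fun a => ∑ w : (Fin r × Fin r) × (Fin r × Fin r), f a (G w.1.1 w.1.2 * G w.2.1 w.2.2) •
      (X (Sum.inr (0, w.1.1)) * X (Sum.inr (0, w.1.2)) *
          (X (Sum.inr (1, w.2.1)) * X (Sum.inr (1, w.2.2))) -
        X (Sum.inr (0, w.1.1)) * X (Sum.inr (1, w.1.2)) *
          (X (Sum.inr (0, w.2.1)) * X (Sum.inr (1, w.2.2)))))
    (fun t => ∑ i : Fin r, (X (Sum.inl (t.2, i)) * X (Sum.inr (t.1, i))))
  have hsol : ∀ᶠ a in (U : Filter (Fin m × Fin r → ℚ)), ∀ j,
      eval (Sum.elim a (y a)) (P j) = 0 := by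
    refine hUB.mono fun a ha j => ?_
    obtain ⟨-, h2, h3, -, h5⟩ := (hBad _ _).1 (hy a ha)
    rcases j with j | ⟨e, j⟩
    · have h6 := pg_eval G (f j) (fun i => (Sum.inr (0, i) : (Fin m × Fin r) ⊕ (Fin 2 × Fin r)))
        (fun i => Sum.inr (1, i)) (Sum.elim a (y a))
      simp only [Sum.elim_inr] at h6
      change eval (Sum.elim a (y a)) (∑ w : (Fin r × Fin r) × (Fin r × Fin r), _) = 0
      rw [h6, h5, ← map_sub, ← pow_two, sub_self, map_zero]
    · have : eval (Sum.elim a (y a)) (P (Sum.inr (e, j))) = ∑ i, a (j, i) * y a (e, i) := by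
        simp only [P, Sum.elim_inr, map_sum, map_mul, eval_X, Sum.elim_inl]
      rw [this]
      fin_cases e
      · exact h2 j
      · exact h3 j
  have hgs := MP60829e.FC.gs_gen U (fun a => a) hU P y hsol
  obtain ⟨φ, hφB, hφ⟩ := (hUB.and hgs).exists
  obtain ⟨hli, hφ0, hφ1, han, hdet⟩ := (hBad _ _).1 (hy φ hφB)
  obtain ⟨z, hz⟩ : ∃ z, z = y φ := ⟨_, rfl⟩
  rw [← hz] at hli hφ0 hφ1 han hdet
  obtain ⟨x₀, hx₀⟩ : ∃ x₀ : Fin r → ℚ, x₀ = fun i => z (0, i) := ⟨_, rfl⟩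
  obtain ⟨x₁, hx₁⟩ : ∃ x₁ : Fin r → ℚ, x₁ = fun i => z (1, i) := ⟨_, rfl⟩
  have e0 : ∀ i, z (0, i) = x₀ i := fun i => by rw [hx₀]
  have e1 : ∀ i, z (1, i) = x₁ i := fun i => by rw [hx₁]
  rw [← hx₀, ← hx₁] at hli hdet
  simp only [← hx₀, ← hx₁] at han
  simp only [e0] at hφ0
  simp only [e1] at hφ1
  have htan : ∀ ψ : Fin m × Fin r → ℚ, ∃ η : Fin 2 → Fin r → ℚ, η ∈ ptan G x₀ x₁ ∧
      (∀ j, ∑ i, ψ (j, i) * x₀ i + ∑ i, φ (j, i) * η 0 i = 0) ∧
      (∀ j, ∑ i, ψ (j, i) * x₁ i + ∑ i, φ (j, i) * η 1 i = 0) := by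
    intro ψ
    obtain ⟨η, hη⟩ := hφ ψ
    have hη' : ∀ j, pgT (Sum.elim ψ η) (Sum.elim φ z) (P j) = 0 := by
      intro j
      unfold pgT
      rw [Fintype.sum_sum_type, hz]
      exact hη j
    refine ⟨fun e i => η (e, i), ?_, fun j => ?_, fun j => ?_⟩
    · rw [mem_ptan]
      have h0 := hf' _ (Submodule.mem_sup_right (Submodule.sub_mem _ (Submodule.add_mem _
          (pg_mem G Z hZG (fun i => η (0, i)) x₀ x₁ x₁)
          (pg_mem G Z hZG (fun i => η (1, i)) x₁ x₀ x₀))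
          (show (hf G (fun i => η (0, i)) x₁ + hf G (fun i => η (1, i)) x₀) * hf G x₀ x₁ ∈
            Submodule.span ℚ (Z : Set K) by
            rw [add_mul]
            exact Submodule.add_mem _ (pg_mem G Z hZG _ _ _ _) (pg_mem G Z hZG _ _ _ _))))
        (fun a => by
          have h1 := hη' (Sum.inl a)
          have h2 := pg_tan G hG (f a)
            (fun i => (Sum.inr (0, i) : (Fin m × Fin r) ⊕ (Fin 2 × Fin r)))
            (fun i => Sum.inr (1, i)) (Sum.elim ψ η) (Sum.elim φ z) (x := x₀) (y := x₁)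
            (a := fun i => η (0, i)) (b := fun i => η (1, i)) hx₀ hx₁ rfl rfl
          change pgT (Sum.elim ψ η) (Sum.elim φ z)
            (∑ w : (Fin r × Fin r) × (Fin r × Fin r), _) = 0 at h1
          rw [h2] at h1
          linarith)
      exact (Submodule.mem_bot ℚ).1 h0
    · have h1 := hη' (Sum.inr (0, j))
      change pgT (Sum.elim ψ η) (Sum.elim φ z)
        (∑ i : Fin r, (X (Sum.inl (j, i)) * X (Sum.inr (0, i)))) = 0 at h1
      rw [pgT_sum] at h1
      simp only [pgT_mul, pgT_X, eval_X, Sum.elim_inr, Sum.elim_inl, e0] at h1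
      rw [Finset.sum_add_distrib] at h1
      exact h1
    · have h1 := hη' (Sum.inr (1, j))
      change pgT (Sum.elim ψ η) (Sum.elim φ z)
        (∑ i : Fin r, (X (Sum.inl (j, i)) * X (Sum.inr (1, i)))) = 0 at h1
      rw [pgT_sum] at h1
      simp only [pgT_mul, pgT_X, eval_X, Sum.elim_inr, Sum.elim_inl, e1] at h1
      rw [Finset.sum_add_distrib] at h1
      exact h1
  -- the dimension count
  obtain ⟨a, b, hax, hay, hbx, hby⟩ := pg_dual hli
  let Φ₀ : (Fin r → ℚ) →ₗ[ℚ] (Fin m → ℚ) := Matrix.mulVecLin (Matrix.of fun j i => φ (j, i))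
  have hΦ₀ : ∀ η j, Φ₀ η j = ∑ i, φ (j, i) * η i := fun η j => rfl
  let Φ : (Fin 2 → Fin r → ℚ) →ₗ[ℚ] (Fin 2 → Fin m → ℚ) := LinearMap.pi
    fun e => Φ₀.comp (LinearMap.proj e)
  have hΦ : ∀ η e j, Φ η e j = ∑ i, φ (j, i) * η e i := fun η e j => rfl
  have hsurj : ∀ w : Fin 2 → Fin m → ℚ, ∃ η ∈ ptan G x₀ x₁, Φ η = w := by
    intro w
    obtain ⟨η, hη1, hη2, hη3⟩ := htan (fun v => - w 0 v.1 * a v.2 - w 1 v.1 * b v.2)
    have hs : ∀ (j : Fin m) (u : Fin r → ℚ), ∑ i, (- w 0 j * a i - w 1 j * b i) * u i =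
        - w 0 j * ∑ i, a i * u i - w 1 j * ∑ i, b i * u i := by
      intro j u
      rw [Finset.mul_sum, Finset.mul_sum, ← Finset.sum_sub_distrib]
      exact Finset.sum_congr rfl fun i _ => by ring
    refine ⟨η, hη1, ?_⟩
    funext e j
    rw [hΦ]
    fin_cases e
    · have h1 := hη2 j
      simp only [hs, hax, hbx] at h1
      change ∑ i, φ (j, i) * η 0 i = w 0 j
      linarith
    · have h1 := hη3 j
      simp only [hs, hay, hby] at h1
      change ∑ i, φ (j, i) * η 1 i = w 1 j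
      linarith
  have hrange : LinearMap.range (Φ.domRestrict (ptan G x₀ x₁)) = ⊤ := by
    rw [LinearMap.range_eq_top]
    intro w
    obtain ⟨η, h1, h2⟩ := hsurj w
    exact ⟨⟨η, h1⟩, h2⟩
  -- the kernel
  have hmem : ∀ c : Fin 2 → Fin 2 → ℚ, (fun e => c e 0 • x₀ + c e 1 • x₁) ∈ ptan G x₀ x₁ := by
    intro c
    have hd : hf G x₀ x₀ * hf G x₁ x₁ = hf G x₀ x₁ * hf G x₀ x₁ := by rw [hdet, pow_two]
    have hlin : ∀ (s t : ℚ) (u : Fin r → ℚ), hf G (s • x₀ + t • x₁) u =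
        s • hf G x₀ u + t • hf G x₁ u := by
      intro s t u
      have h1 := (hfL G u).map_add (s • x₀) (t • x₁)
      rw [map_smul, map_smul] at h1
      exact h1
    rw [mem_ptan]
    simp only [hlin]
    rw [hf_symm hG x₁ x₀]
    simp only [Algebra.smul_def]
    linear_combination (algebraMap ℚ K (c 0 0) + algebraMap ℚ K (c 1 1)) * hd
  let Λ : (Fin 2 → Fin 2 → ℚ) →ₗ[ℚ] ptan G x₀ x₁ := LinearMap.codRestrict _
    (LinearMap.pi fun e => (Fintype.linearCombination ℚ ![x₀, x₁]).comp (LinearMap.proj e))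
    (fun c => by
      have h1 := hmem c
      have h2 : (LinearMap.pi fun e : Fin 2 => (Fintype.linearCombination ℚ ![x₀, x₁]).comp
          (LinearMap.proj (φ := fun _ : Fin 2 => Fin 2 → ℚ) e)) c =
          fun e => c e 0 • x₀ + c e 1 • x₁ := by
        funext e
        simp [Fintype.linearCombination_apply, Fin.sum_univ_two]
      rw [h2]
      exact h1)
  have hΛv : ∀ c, ((Λ c : ptan G x₀ x₁) : Fin 2 → Fin r → ℚ) =
      fun e => c e 0 • x₀ + c e 1 • x₁ := by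
    intro c
    funext e
    change Fintype.linearCombination ℚ ![x₀, x₁] (c e) = _
    simp [Fintype.linearCombination_apply, Fin.sum_univ_two]
  have hΛi : Function.Injective Λ := by
    intro c d hcd
    have h1 : ∀ e, Fintype.linearCombination ℚ ![x₀, x₁] (c e) =
        Fintype.linearCombination ℚ ![x₀, x₁] (d e) := fun e =>
      congrFun (congrArg Subtype.val hcd) e
    funext e
    exact linearIndependent_iff_injective_fintypeLinearCombination.1 hli (h1 e)
  have hΛk : LinearMap.range Λ ≤ LinearMap.ker (Φ.domRestrict (ptan G x₀ x₁)) := by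
    rintro _ ⟨c, rfl⟩
    rw [LinearMap.mem_ker, LinearMap.domRestrict_apply, hΛv]
    funext e j
    rw [hΦ]
    simp only [Pi.add_apply, Pi.smul_apply, smul_eq_mul, Pi.zero_apply]
    have h1 : ∑ i, φ (j, i) * (c e 0 * x₀ i + c e 1 * x₁ i) =
        c e 0 * ∑ i, φ (j, i) * x₀ i + c e 1 * ∑ i, φ (j, i) * x₁ i := by
      rw [Finset.mul_sum, Finset.mul_sum, ← Finset.sum_add_distrib]
      exact Finset.sum_congr rfl fun i _ => by ring
    rw [h1, hφ0, hφ1, mul_zero, mul_zero, add_zero]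
  have hker : 4 ≤ finrank ℚ (LinearMap.ker (Φ.domRestrict (ptan G x₀ x₁))) := by
    have h1 := LinearMap.finrank_range_of_inj hΛi
    have h2 := Submodule.finrank_mono hΛk
    rw [h1] at h2
    have h3 : finrank ℚ (Fin 2 → Fin 2 → ℚ) = 4 := by
      rw [Module.finrank_pi_fintype]
      simp
    omega
  have hsum := LinearMap.finrank_range_add_finrank_ker (Φ.domRestrict (ptan G x₀ x₁))
  have hfin : finrank ℚ (Fin 2 → Fin m → ℚ) = 2 * m := by
    rw [Module.finrank_pi_fintype]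
    simp
  rw [hrange, finrank_top, hfin] at hsum
  have := hm x₀ x₁ hli hdet han
  omega

end Pool.Agent.Lib.MP_3550b5_nt.Iso
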