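import Mathlib
import Pool.Agent.Lib.MP_3550b5_nt.Iso.Generic

/-! # A generic subspace contains no rational tuple with singular Gram matrix -/

open MvPolynomial Module Filter

namespace Pool.Agent.Lib.MP_3550b5_nt.Iso

variable {K : Type} [Field K] [Algebra ℚ K] {r n : ℕ}

/-- The Gram matrix of a tuple of rational vectors. -/
noncomputable def tgram (G : Matrix (Fin r) (Fin r) K) (x : Fin n → Fin r → ℚ) :
    Matrix (Fin n) (Fin n) K := Matrix.of fun i j => hf G (x i) (x j)

/-- The derivative of the Gram matrix at `x` in the direction `v`. -/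
noncomputable def dgram (G : Matrix (Fin r) (Fin r) K) (x v : Fin n → Fin r → ℚ) :
    Matrix (Fin n) (Fin n) K := Matrix.of fun i j => hf G (v i) (x j) + hf G (x i) (v j)

theorem hf_lin_left (G : Matrix (Fin r) (Fin r) K) (v w y : Fin r → ℚ) (c : ℚ) :
    hf G (c • v + w) y = algebraMap ℚ K c * hf G v y + hf G w y := by
  unfold hf
  rw [Finset.mul_sum, ← Finset.sum_add_distrib]
  refine Finset.sum_congr rfl fun k _ => ?_
  rw [Finset.mul_sum, ← Finset.sum_add_distrib]
  refine Finset.sum_congr rfl fun l _ => ?_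
  simp only [Pi.add_apply, Pi.smul_apply, smul_eq_mul, map_add, map_mul]
  ring

theorem hf_lin_right (G : Matrix (Fin r) (Fin r) K) (v w y : Fin r → ℚ) (c : ℚ) :
    hf G y (c • v + w) = algebraMap ℚ K c * hf G y v + hf G y w := by
  unfold hf
  rw [Finset.mul_sum, ← Finset.sum_add_distrib]
  refine Finset.sum_congr rfl fun k _ => ?_
  rw [Finset.mul_sum, ← Finset.sum_add_distrib]
  refine Finset.sum_congr rfl fun l _ => ?_
  simp only [Pi.add_apply, Pi.smul_apply, smul_eq_mul, map_add, map_mul]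
  ring

theorem dgram_lin (G : Matrix (Fin r) (Fin r) K) (x v w : Fin n → Fin r → ℚ) (c : ℚ) :
    dgram G x (c • v + w) = algebraMap ℚ K c • dgram G x v + dgram G x w := by
  ext i j
  simp only [dgram, Matrix.of_apply, Matrix.add_apply, Matrix.smul_apply, smul_eq_mul]
  have h1 : ∀ i, (c • v + w) i = c • v i + w i := fun _ => rfl
  rw [h1, h1, hf_lin_left, hf_lin_right]
  ring

/-- The rational tangent vectors at `x` of the set of tuples with singular Gram matrix. -/
noncomputable def ttan (G : Matrix (Fin r) (Fin r) K) (x : Fin n → Fin r → ℚ) :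
    Submodule ℚ (Fin n → Fin r → ℚ) where
  carrier := {v | ((tgram G x).adjugate * dgram G x v).trace = 0}
  zero_mem' := by
    have h := dgram_lin G x 0 0 1
    rw [smul_zero, add_zero, map_one, one_smul, left_eq_add] at h
    show ((tgram G x).adjugate * dgram G x 0).trace = 0
    rw [h, mul_zero, Matrix.trace_zero]
  add_mem' := by
    intro v w hv hw
    have h := dgram_lin G x v w 1
    rw [one_smul, map_one, one_smul] at h
    show ((tgram G x).adjugate * dgram G x (v + w)).trace = 0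
    rw [h, mul_add, Matrix.trace_add, show ((tgram G x).adjugate * dgram G x v).trace = 0 from hv,
      show ((tgram G x).adjugate * dgram G x w).trace = 0 from hw, add_zero]
  smul_mem' := by
    intro c v hv
    have h0 := dgram_lin G x 0 0 1
    rw [smul_zero, add_zero, map_one, one_smul, left_eq_add] at h0
    have h := dgram_lin G x v 0 c
    rw [add_zero, h0, add_zero] at h
    show ((tgram G x).adjugate * dgram G x (c • v)).trace = 0
    rw [h, Matrix.mul_smul, Matrix.trace_smul,
      show ((tgram G x).adjugate * dgram G x v).trace = 0 from hv, smul_zero]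

theorem mem_ttan {G : Matrix (Fin r) (Fin r) K} {x v : Fin n → Fin r → ℚ} :
    v ∈ ttan G x ↔ ((tgram G x).adjugate * dgram G x v).trace = 0 := Iff.rfl

/-! ### Derivation of determinants -/

private theorem tg_prod {A B ι : Type*} [CommRing A] [CommRing B] [DecidableEq ι] (φ : A →+* B)
    (δ : A →+ B) (hδ : ∀ a b, δ (a * b) = φ a * δ b + δ a * φ b) (s : Finset ι) (g : ι → A) :
    δ (∏ i ∈ s, g i) = ∑ i ∈ s, (∏ j ∈ s.erase i, φ (g j)) * δ (g i) := by
  induction s using Finset.induction_on with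
  | empty =>
    have h := hδ 1 1
    rw [mul_one, map_one φ, one_mul, mul_one, left_eq_add] at h
    rw [Finset.prod_empty, Finset.sum_empty, h]
  | insert a s ha ih =>
    rw [Finset.prod_insert ha, hδ, ih, Finset.sum_insert ha, Finset.erase_insert ha, map_prod,
      Finset.mul_sum, add_comm, mul_comm (δ (g a))]
    congr 1
    refine Finset.sum_congr rfl fun i hi => ?_
    have hne : a ≠ i := fun h => ha (h ▸ hi)
    rw [Finset.erase_insert_of_ne hne,
      Finset.prod_insert (fun h => ha (Finset.mem_of_mem_erase h)), mul_assoc]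

private theorem tg_det {A B ι : Type*} [CommRing A] [CommRing B] [DecidableEq ι] [Fintype ι]
    (φ : A →+* B) (δ : A →+ B) (hδ : ∀ a b, δ (a * b) = φ a * δ b + δ a * φ b)
    (M : Matrix ι ι A) :
    δ M.det = ((M.map φ).adjugate * M.map δ).trace := by
  have h1 : ∀ σ : Equiv.Perm ι, δ (Equiv.Perm.sign σ • ∏ i, M (σ i) i) =
      ∑ i, Equiv.Perm.sign σ • ∏ j, ((M.map φ).updateCol i fun k => δ (M k i)) (σ j) j := by
    intro σ
    rw [Units.smul_def, map_zsmul, tg_prod φ δ hδ, Finset.smul_sum]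
    refine Finset.sum_congr rfl fun i _ => ?_
    rw [Units.smul_def, ← Finset.prod_erase_mul Finset.univ _ (Finset.mem_univ i)]
    congr 1
    rw [Matrix.updateCol_self]
    congr 1
    refine Finset.prod_congr rfl fun j hj => ?_
    rw [Matrix.updateCol_ne (Finset.ne_of_mem_erase hj), Matrix.map_apply]
  rw [Matrix.det_apply, map_sum, Finset.sum_congr rfl fun σ _ => h1 σ, Finset.sum_comm,
    Matrix.trace]
  refine Finset.sum_congr rfl fun i _ => ?_
  rw [← Matrix.det_apply, ← Matrix.cramer_apply, Matrix.cramer_eq_adjugate_mulVec,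
    Matrix.diag_apply, Matrix.mul_apply, Matrix.mulVec, dotProduct]
  rfl

/-! ### Polynomials with coefficients in an extension -/

private noncomputable def tg_T {L ρ : Type*} [CommRing L] [Fintype ρ] (v x : ρ → L) :
    MvPolynomial ρ L →+ L where
  toFun p := ∑ s, v s * eval x (pderiv s p)
  map_zero' := by simp
  map_add' p q := by
    rw [← Finset.sum_add_distrib]
    refine Finset.sum_congr rfl fun s _ => ?_
    rw [map_add, map_add, mul_add]

private theorem tg_T_apply {L ρ : Type*} [CommRing L] [Fintype ρ] (v x : ρ → L)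
    (p : MvPolynomial ρ L) : tg_T v x p = ∑ s, v s * eval x (pderiv s p) := rfl

private theorem tg_T_mul {L ρ : Type*} [CommRing L] [Fintype ρ] (v x : ρ → L)
    (p q : MvPolynomial ρ L) :
    tg_T v x (p * q) = eval x p * tg_T v x q + tg_T v x p * eval x q := by
  rw [tg_T_apply, tg_T_apply, tg_T_apply, Finset.sum_mul, Finset.mul_sum,
    ← Finset.sum_add_distrib]
  refine Finset.sum_congr rfl fun s _ => ?_
  rw [pderiv_mul, map_add, map_mul, map_mul]
  ring

private theorem tg_T_X {L ρ : Type*} [CommRing L] [Fintype ρ] [DecidableEq ρ] (v x : ρ → L)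
    (i : ρ) : tg_T v x (X i) = v i := by
  rw [tg_T_apply, Finset.sum_eq_single i]
  · rw [pderiv_X_self, map_one, mul_one]
  · intro s _ hs
    rw [pderiv_X_of_ne hs.symm, map_zero, mul_zero]
  · intro h
    exact absurd (Finset.mem_univ _) h

private theorem tg_T_C {L ρ : Type*} [CommRing L] [Fintype ρ] (v x : ρ → L)
    (c : L) : tg_T v x (C c) = 0 := by
  rw [tg_T_apply]
  refine Finset.sum_eq_zero fun s _ => ?_
  rw [pderiv_C, map_zero, mul_zero]

private noncomputable def tg_cf {ρ : Type*} (f : K →ₗ[ℚ] ℚ) (p : MvPolynomial ρ K) :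
    MvPolynomial ρ ℚ := ∑ m ∈ p.support, monomial m (f (coeff m p))

private theorem tg_lin (f : K →ₗ[ℚ] ℚ) (c : K) (t : ℚ) : f (c * algebraMap ℚ K t) = f c * t := by
  rw [mul_comm, ← Algebra.smul_def, map_smul, smul_eq_mul, mul_comm]

private theorem tg_eval {ρ : Type*} (f : K →ₗ[ℚ] ℚ) (p : MvPolynomial ρ K) (x : ρ → ℚ) :
    eval x (tg_cf f p) = f (eval (fun s => algebraMap ℚ K (x s)) p) := by
  rw [tg_cf, map_sum, eval_eq, map_sum]
  refine Finset.sum_congr rfl fun m _ => ?_
  rw [eval_monomial, Finsupp.prod, ← tg_lin, map_prod]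
  simp only [map_pow]

private theorem tg_T_mono {L ρ : Type*} [CommRing L] [Fintype ρ] (v x : ρ → L)
    (p : MvPolynomial ρ L) : tg_T v x p = ∑ m ∈ p.support, coeff m p * ∑ s,
      v s * ((m s : L) * (m - Finsupp.single s 1).prod fun i e => x i ^ e) := by
  conv_lhs => rw [p.as_sum]
  rw [map_sum]
  refine Finset.sum_congr rfl fun m _ => ?_
  rw [tg_T_apply, Finset.mul_sum]
  refine Finset.sum_congr rfl fun s _ => ?_
  rw [pderiv_monomial, eval_monomial]
  ring

private theorem tg_tan {ρ : Type*} [Fintype ρ] (f : K →ₗ[ℚ] ℚ) (p : MvPolynomial ρ K)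
    (v x : ρ → ℚ) : tg_T v x (tg_cf f p) =
      f (tg_T (fun s => algebraMap ℚ K (v s)) (fun s => algebraMap ℚ K (x s)) p) := by
  rw [tg_T_mono _ _ p, tg_cf, map_sum, map_sum]
  refine Finset.sum_congr rfl fun m _ => ?_
  rw [tg_T_apply]
  have h : ∑ s, algebraMap ℚ K (v s) * ((m s : K) * (m - Finsupp.single s 1).prod fun i e =>
      algebraMap ℚ K (x i) ^ e) = algebraMap ℚ K (∑ s, v s * ((m s : ℚ) *
        (m - Finsupp.single s 1).prod fun i e => x i ^ e)) := by
    rw [map_sum]
    refine Finset.sum_congr rfl fun s _ => ?_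
    rw [map_mul, map_mul, map_natCast, Finsupp.prod, Finsupp.prod, map_prod]
    simp only [map_pow]
  rw [h, tg_lin, Finset.mul_sum]
  refine Finset.sum_congr rfl fun s _ => ?_
  rw [pderiv_monomial, eval_monomial]
  ring

private theorem tg_mem {ρ : Type*} [Fintype ρ] [DecidableEq K] (p : MvPolynomial ρ K)
    (v x : ρ → ℚ) :
    tg_T (fun s => algebraMap ℚ K (v s)) (fun s => algebraMap ℚ K (x s)) p ∈
      Submodule.span ℚ ((p.support.image fun m => coeff m p : Finset K) : Set K) := by
  rw [tg_T_mono]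
  refine Submodule.sum_mem _ fun m hm => ?_
  have h : ∑ s, algebraMap ℚ K (v s) * ((m s : K) * (m - Finsupp.single s 1).prod fun i e =>
      algebraMap ℚ K (x i) ^ e) = algebraMap ℚ K (∑ s, v s * ((m s : ℚ) *
        (m - Finsupp.single s 1).prod fun i e => x i ^ e)) := by
    rw [map_sum]
    refine Finset.sum_congr rfl fun s _ => ?_
    rw [map_mul, map_mul, map_natCast, Finsupp.prod, Finsupp.prod, map_prod]
    simp only [map_pow]
  rw [h, mul_comm, ← Algebra.smul_def]
  exact Submodule.smul_mem _ _ (Submodule.subset_span (Finset.mem_coe.2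
    (Finset.mem_image.2 ⟨m, hm, rfl⟩)))

/-- the polynomial Gram matrix -/
private noncomputable def tg_M {ρ : Type*} (G : Matrix (Fin r) (Fin r) K) (y : Fin n → Fin r → ρ) :
    Matrix (Fin n) (Fin n) (MvPolynomial ρ K) :=
  Matrix.of fun i j => ∑ k, ∑ l, C (G k l) * (X (y i k) * X (y j l))

private theorem tg_M_eval {ρ : Type*} (G : Matrix (Fin r) (Fin r) K) (y : Fin n → Fin r → ρ)
    (z : ρ → ℚ) :
    (tg_M G y).map (eval fun s => algebraMap ℚ K (z s)) = tgram G fun i k => z (y i k) := by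
  ext i j
  rw [Matrix.map_apply, tg_M, Matrix.of_apply, tgram, Matrix.of_apply, hf, map_sum]
  refine Finset.sum_congr rfl fun k _ => ?_
  rw [map_sum]
  refine Finset.sum_congr rfl fun l _ => ?_
  rw [map_mul, map_mul, eval_C, eval_X, eval_X, map_mul]
  ring

private theorem tg_M_T {ρ : Type*} [Fintype ρ] [DecidableEq ρ] (G : Matrix (Fin r) (Fin r) K)
    (y : Fin n → Fin r → ρ) (v z : ρ → ℚ) :
    (tg_M G y).map (tg_T (fun s => algebraMap ℚ K (v s)) fun s => algebraMap ℚ K (z s)) =
      dgram G (fun i k => z (y i k)) fun i k => v (y i k) := by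
  ext i j
  rw [Matrix.map_apply, tg_M, Matrix.of_apply, dgram, Matrix.of_apply, hf, hf, map_sum,
    ← Finset.sum_add_distrib]
  refine Finset.sum_congr rfl fun k _ => ?_
  rw [map_sum, ← Finset.sum_add_distrib]
  refine Finset.sum_congr rfl fun l _ => ?_
  rw [tg_T_mul, tg_T_mul, tg_T_C, tg_T_X, tg_T_X, eval_C, eval_X, eval_X,
    map_mul (algebraMap ℚ K) (v (y i k)), map_mul (algebraMap ℚ K) (z (y i k))]
  ring

/-- a dual basis -/
private theorem tg_dual {x : Fin n → Fin r → ℚ} (h : LinearIndependent ℚ x) :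
    ∃ a : Fin n → Fin r → ℚ, ∀ e e', ∑ i, a e i * x e' i = if e = e' then 1 else 0 := by
  classical
  have h1 : LinearMap.ker (Fintype.linearCombination ℚ x) = ⊥ := by
    rw [LinearMap.ker_eq_bot]
    exact linearIndependent_iff_injective_fintypeLinearCombination.1 h
  obtain ⟨g, hg⟩ := LinearMap.exists_leftInverse_of_injective _ h1
  have hgx : ∀ e', g (x e') = Pi.single e' 1 := by
    intro e'
    have h2 := LinearMap.congr_fun hg (Pi.single e' 1)
    rw [LinearMap.comp_apply, Fintype.linearCombination_apply_single] at h2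
    simpa using h2
  have key : ∀ (u : Fin r → ℚ) (e : Fin n), ∑ i, g (Pi.single i 1) e * u i = g u e := by
    intro u e
    have h2 := congrFun (LinearMap.pi_apply_eq_sum_univ g u) e
    rw [h2, Finset.sum_apply]
    refine Finset.sum_congr rfl fun i _ => ?_
    have h3 : (fun j => if i = j then (1 : ℚ) else 0) = Pi.single i 1 := by
      funext j
      rw [Pi.single_apply]
      simp only [eq_comm]
    rw [Pi.smul_apply, smul_eq_mul, mul_comm, h3]
  refine ⟨fun e i => g (Pi.single i 1) e, fun e e' => ?_⟩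
  rw [key, hgx, Pi.single_apply]

/-- the tangent space contains the combinations of the tuple -/
private theorem tg_comb {G : Matrix (Fin r) (Fin r) K} {x : Fin n → Fin r → ℚ}
    (h0 : (tgram G x).det = 0) (c : Fin n → Fin n → ℚ) :
    (fun e => ∑ e', c e e' • x e') ∈ ttan G x := by
  rw [mem_ttan]
  have hl : ∀ (s : Fin n → ℚ) (u : Fin r → ℚ), hf G (∑ e', s e' • x e') u =
      ∑ e', algebraMap ℚ K (s e') * hf G (x e') u := by
    intro s u
    have h1 := map_sum (hfL G u) (fun e' => s e' • x e') Finset.univ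
    have h2 : ∀ e', hfL G u (s e' • x e') = algebraMap ℚ K (s e') * hf G (x e') u := by
      intro e'
      rw [map_smul, Algebra.smul_def]
      rfl
    rw [Finset.sum_congr rfl fun e' _ => h2 e'] at h1
    exact h1
  have hr : ∀ (s : Fin n → ℚ) (u : Fin r → ℚ), hf G u (∑ e', s e' • x e') =
      ∑ e', algebraMap ℚ K (s e') * hf G u (x e') := by
    intro s u
    have h1 : ∀ t : Finset (Fin n), hf G u (∑ e' ∈ t, s e' • x e') =
        ∑ e' ∈ t, algebraMap ℚ K (s e') * hf G u (x e') := by
      intro t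
      induction t using Finset.induction_on with
      | empty =>
        have h2 := hf_lin_right G 0 0 u 1
        rw [smul_zero, add_zero, map_one, one_mul, left_eq_add] at h2
        rw [Finset.sum_empty, Finset.sum_empty, h2]
      | insert a t ha ih => rw [Finset.sum_insert ha, Finset.sum_insert ha, hf_lin_right, ih]
    exact h1 _
  have hd : dgram G x (fun e => ∑ e', c e e' • x e') =
      (Matrix.of fun e e' => algebraMap ℚ K (c e e')) * tgram G x +
        tgram G x * (Matrix.of fun e e' => algebraMap ℚ K (c e e')).transpose := by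
    ext i j
    rw [dgram, Matrix.of_apply, hl, hr, Matrix.add_apply, Matrix.mul_apply, Matrix.mul_apply]
    congr 1
    refine Finset.sum_congr rfl fun e _ => ?_
    rw [Matrix.transpose_apply, Matrix.of_apply, mul_comm]
    rfl
  rw [hd, mul_add, Matrix.trace_add, ← mul_assoc, Matrix.trace_mul_comm, ← mul_assoc,
    Matrix.mul_adjugate, ← mul_assoc, Matrix.adjugate_mul, h0, zero_smul, zero_mul, zero_mul,
    Matrix.trace_zero, add_zero]

/-- If the rational tangent space of every linearly independent tuple with the property `S` and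
with singular Gram matrix has dimension less than `n * m + n ^ 2`, then outside a hypersurface of
the space of `m` linear forms there is no such tuple in the common kernel. -/
theorem tuple_generic (G : Matrix (Fin r) (Fin r) K) (hG : ∀ i j, G i j = G j i) {m : ℕ}
    (S : (Fin n → Fin r → ℚ) → Prop)
    (hm : ∀ x, LinearIndependent ℚ x → S x → (tgram G x).det = 0 →
      finrank ℚ (ttan G x) < n * m + n ^ 2) :
    ∃ Q : MvPolynomial (Fin m × Fin r) ℚ, Q ≠ 0 ∧ ∀ φ : Fin m × Fin r → ℚ, eval φ Q ≠ 0 →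
      ∀ x : Fin n → Fin r → ℚ, LinearIndependent ℚ x →
        (∀ e j, ∑ i, φ (j, i) * x e i = 0) → S x → (tgram G x).det ≠ 0 := by
  classical
  by_contra hcon
  push Not at hcon
  obtain ⟨Bad, hBad⟩ : ∃ Bad : (Fin m × Fin r → ℚ) → (Fin n × Fin r → ℚ) → Prop,
      ∀ φ z, Bad φ z ↔ (LinearIndependent ℚ (fun e i => z (e, i)) ∧
        (∀ e j, ∑ i, φ (j, i) * z (e, i) = 0) ∧ S (fun e i => z (e, i)) ∧
        (tgram G (fun e i => z (e, i))).det = 0) := ⟨_, fun _ _ => Iff.rfl⟩
  obtain ⟨U, hUB, hU⟩ := MP60829e.FC.exists_ultra (k := ℚ) (I := Fin m × Fin r → ℚ)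
    (σ := Fin m × Fin r) (fun a => a) {φ | ∃ z, Bad φ z}
    (fun P hP => by
      obtain ⟨φ, h1, x, h2, h3, h4, h5⟩ := hcon P hP
      exact ⟨φ, ⟨fun t => x t.1 t.2, (hBad _ _).2 ⟨h2, h3, h4, h5⟩⟩, h1⟩)
  have hch : ∀ φ : Fin m × Fin r → ℚ, ∃ z : Fin n × Fin r → ℚ, (∃ z, Bad φ z) → Bad φ z := by
    intro φ
    by_cases h : ∃ z, Bad φ z
    · obtain ⟨z, hz⟩ := h
      exact ⟨z, fun _ => hz⟩
    · exact ⟨0, fun h' => absurd h' h⟩
  choose y hy using hch
  obtain ⟨yi, hyi⟩ : ∃ yi : Fin n → Fin r → (Fin m × Fin r) ⊕ (Fin n × Fin r),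
      ∀ e i, yi e i = Sum.inr (e, i) := ⟨fun e i => Sum.inr (e, i), fun _ _ => rfl⟩
  obtain ⟨D, hD⟩ : ∃ D, D = (tg_M G yi).det := ⟨_, rfl⟩
  obtain ⟨q, f, _, hf'⟩ := MP60829e.TV.exists_forms (⊥ : Submodule ℚ K)
    (D.support.image fun t => coeff t D)
  let P : Fin q ⊕ (Fin n × Fin m) → MvPolynomial ((Fin m × Fin r) ⊕ (Fin n × Fin r)) ℚ := Sum.elim
    (fun a => tg_cf (f a) D)
    (fun t => ∑ i : Fin r, (X (Sum.inl (t.2, i)) * X (Sum.inr (t.1, i))))
  have hsol : ∀ᶠ a in (U : Filter (Fin m × Fin r → ℚ)), ∀ j,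
      eval (Sum.elim a (y a)) (P j) = 0 := by
    refine hUB.mono fun a ha j => ?_
    obtain ⟨-, h2, -, h5⟩ := (hBad _ _).1 (hy a ha)
    rcases j with j | ⟨e, j⟩
    · change eval (Sum.elim a (y a)) (tg_cf (f j) D) = 0
      rw [tg_eval, hD, RingHom.map_det, RingHom.mapMatrix_apply, tg_M_eval]
      simp only [hyi, Sum.elim_inr]
      rw [h5, map_zero]
    · have : eval (Sum.elim a (y a)) (P (Sum.inr (e, j))) = ∑ i, a (j, i) * y a (e, i) := by
        simp only [P, Sum.elim_inr, map_sum, map_mul, eval_X, Sum.elim_inl]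
      rw [this]
      exact h2 e j
  have hgs := MP60829e.FC.gs_gen U (fun a => a) hU P y hsol
  obtain ⟨φ, hφB, hφ⟩ := (hUB.and hgs).exists
  obtain ⟨hli, hφ0, hS, hdet⟩ := (hBad _ _).1 (hy φ hφB)
  obtain ⟨z, hz⟩ : ∃ z, z = y φ := ⟨_, rfl⟩
  rw [← hz] at hli hφ0 hS hdet
  obtain ⟨x, hx⟩ : ∃ x : Fin n → Fin r → ℚ, x = fun e i => z (e, i) := ⟨_, rfl⟩
  have e0 : ∀ e i, z (e, i) = x e i := fun e i => by rw [hx]
  rw [← hx] at hli hS hdet
  simp only [e0] at hφ0
  have htan : ∀ ψ : Fin m × Fin r → ℚ, ∃ η : Fin n → Fin r → ℚ, η ∈ ttan G x ∧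
      (∀ e j, ∑ i, ψ (j, i) * x e i + ∑ i, φ (j, i) * η e i = 0) := by
    intro ψ
    obtain ⟨η, hη⟩ := hφ ψ
    have hη' : ∀ j, tg_T (Sum.elim ψ η) (Sum.elim φ z) (P j) = 0 := by
      intro j
      rw [tg_T_apply, Fintype.sum_sum_type, hz]
      exact hη j
    refine ⟨fun e i => η (e, i), ?_, fun e j => ?_⟩
    · rw [mem_ttan]
      have h3 : tg_T (fun s => algebraMap ℚ K (Sum.elim ψ η s))
          (fun s => algebraMap ℚ K (Sum.elim φ z s)) D =
          ((tgram G x).adjugate * dgram G x fun e i => η (e, i)).trace := by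
        rw [hD, tg_det _ _ (tg_T_mul _ _), tg_M_eval, tg_M_T]
        simp only [hyi, Sum.elim_inr, e0]
      rw [← h3]
      have h0 := hf' _ (Submodule.mem_sup_right (tg_mem D (Sum.elim ψ η) (Sum.elim φ z)))
        (fun a => by
          rw [← tg_tan]
          exact hη' (Sum.inl a))
      exact (Submodule.mem_bot ℚ).1 h0
    · have h1 := hη' (Sum.inr (e, j))
      change tg_T (Sum.elim ψ η) (Sum.elim φ z)
        (∑ i : Fin r, (X (Sum.inl (j, i)) * X (Sum.inr (e, i)))) = 0 at h1
      rw [map_sum] at h1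
      simp only [tg_T_mul, tg_T_X, eval_X, Sum.elim_inr, Sum.elim_inl, e0] at h1
      rw [Finset.sum_add_distrib] at h1
      rw [← h1, add_comm]
  -- the dimension count
  obtain ⟨a, ha⟩ := tg_dual hli
  let Φ₀ : (Fin r → ℚ) →ₗ[ℚ] (Fin m → ℚ) := Matrix.mulVecLin (Matrix.of fun j i => φ (j, i))
  have hΦ₀ : ∀ η j, Φ₀ η j = ∑ i, φ (j, i) * η i := fun η j => rfl
  let Φ : (Fin n → Fin r → ℚ) →ₗ[ℚ] (Fin n → Fin m → ℚ) := LinearMap.pi
    fun e => Φ₀.comp (LinearMap.proj e)
  have hΦ : ∀ η e j, Φ η e j = ∑ i, φ (j, i) * η e i := fun η e j => rfl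
  have hsurj : ∀ w : Fin n → Fin m → ℚ, ∃ η ∈ ttan G x, Φ η = w := by
    intro w
    obtain ⟨η, hη1, hη2⟩ := htan (fun v => - ∑ e, w e v.1 * a e v.2)
    have hs : ∀ (j : Fin m) (e' : Fin n), ∑ i, (- ∑ e, w e j * a e i) * x e' i = - w e' j := by
      intro j e'
      have h1 : ∑ i, (- ∑ e, w e j * a e i) * x e' i =
          - ∑ e, w e j * ∑ i, a e i * x e' i := by
        rw [← Finset.sum_neg_distrib]
        simp only [neg_mul, Finset.sum_mul, Finset.mul_sum, Finset.sum_neg_distrib]
        rw [Finset.sum_comm]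
        congr 1
        refine Finset.sum_congr rfl fun e _ => Finset.sum_congr rfl fun i _ => ?_
        ring
      rw [h1]
      simp only [ha, mul_ite, mul_one, mul_zero, Finset.sum_ite_eq', Finset.mem_univ, if_true]
    refine ⟨η, hη1, ?_⟩
    funext e j
    rw [hΦ]
    have h1 := hη2 e j
    simp only [hs] at h1
    linarith
  have hrange : LinearMap.range (Φ.domRestrict (ttan G x)) = ⊤ := by
    rw [LinearMap.range_eq_top]
    intro w
    obtain ⟨η, h1, h2⟩ := hsurj w
    exact ⟨⟨η, h1⟩, h2⟩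
  -- the kernel
  let Λ : (Fin n → Fin n → ℚ) →ₗ[ℚ] ttan G x := LinearMap.codRestrict _
    (LinearMap.pi fun e => (Fintype.linearCombination ℚ x).comp (LinearMap.proj e))
    (fun c => tg_comb hdet c)
  have hΛv : ∀ c, ((Λ c : ttan G x) : Fin n → Fin r → ℚ) = fun e => ∑ e', c e e' • x e' :=
    fun c => rfl
  have hΛi : Function.Injective Λ := by
    intro c d hcd
    have h1 : ∀ e, Fintype.linearCombination ℚ x (c e) = Fintype.linearCombination ℚ x (d e) :=
      fun e => congrFun (congrArg Subtype.val hcd) e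
    funext e
    exact linearIndependent_iff_injective_fintypeLinearCombination.1 hli (h1 e)
  have hΛk : LinearMap.range Λ ≤ LinearMap.ker (Φ.domRestrict (ttan G x)) := by
    rintro _ ⟨c, rfl⟩
    rw [LinearMap.mem_ker, LinearMap.domRestrict_apply, hΛv]
    funext e j
    rw [hΦ]
    simp only [Finset.sum_apply, Pi.smul_apply, smul_eq_mul, Pi.zero_apply, Finset.mul_sum]
    rw [Finset.sum_comm]
    refine Finset.sum_eq_zero fun e' _ => ?_
    have h1 : ∑ i, φ (j, i) * (c e e' * x e' i) = c e e' * ∑ i, φ (j, i) * x e' i := by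
      rw [Finset.mul_sum]
      exact Finset.sum_congr rfl fun i _ => by ring
    rw [h1, hφ0, mul_zero]
  have hker : n ^ 2 ≤ finrank ℚ (LinearMap.ker (Φ.domRestrict (ttan G x))) := by
    have h1 := LinearMap.finrank_range_of_inj hΛi
    have h2 := Submodule.finrank_mono hΛk
    rw [h1] at h2
    have h3 : finrank ℚ (Fin n → Fin n → ℚ) = n ^ 2 := by
      rw [Module.finrank_pi_fintype]
      simp [pow_two]
    omega
  have hsum := LinearMap.finrank_range_add_finrank_ker (Φ.domRestrict (ttan G x))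
  have hfin : finrank ℚ (Fin n → Fin m → ℚ) = n * m := by
    rw [Module.finrank_pi_fintype]
    simp
  rw [hrange, finrank_top, hfin] at hsum
  have := hm x hli hS hdet
  omega

/-- a nonzero adjugate of a symmetric singular matrix is a multiple of a dyad -/
private theorem h6tk_adj {A : Matrix (Fin n) (Fin n) K} (hA : A.transpose = A) (h0 : A.det = 0)
    (hadj : A.adjugate ≠ 0) :
    ∃ (u : Fin n → K) (c : K), u ≠ 0 ∧ c ≠ 0 ∧ A.mulVec u = 0 ∧
      ∀ i j, A.adjugate i j = c * (u i * u j) := by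
  obtain ⟨i₀, j₀, hij⟩ : ∃ i₀ j₀, A.adjugate i₀ j₀ ≠ 0 := by
    by_contra hcon
    push Not at hcon
    exact hadj (Matrix.ext hcon)
  have hsym : ∀ i j, A.adjugate i j = A.adjugate j i := by
    intro i j
    have h1 := congrFun (congrFun (Matrix.adjugate_transpose A) i) j
    rw [hA] at h1
    exact h1.symm
  have hcol : ∀ j, A.mulVec (fun i => A.adjugate i j) = 0 := by
    intro j
    have h1 : A * A.adjugate = 0 := by rw [Matrix.mul_adjugate, h0, zero_smul]
    funext i
    exact congrFun (congrFun h1 i) j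
  have hker : ∀ v : Fin n → K, A.mulVec v = 0 → v i₀ = 0 → v = 0 := by
    intro v hv hv0
    have h1 : (A.updateRow j₀ (Pi.single i₀ 1)).det ≠ 0 := by
      rw [← Matrix.adjugate_apply]
      exact hij
    have h2 : (A.updateRow j₀ (Pi.single i₀ 1)).mulVec v = 0 := by
      funext i
      by_cases hi : i = j₀
      · subst hi
        show (A.updateRow i (Pi.single i₀ 1)) i ⬝ᵥ v = 0
        rw [Matrix.updateRow_self, single_dotProduct, one_mul, hv0]
      · show (A.updateRow j₀ (Pi.single i₀ 1)) i ⬝ᵥ v = 0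
        rw [Matrix.updateRow_ne hi]
        exact congrFun hv i
    exact Matrix.eq_zero_of_mulVec_eq_zero h1 h2
  obtain ⟨u, hu⟩ : ∃ u : Fin n → K, u = fun i => A.adjugate i j₀ := ⟨_, rfl⟩
  have hu0 : u i₀ ≠ 0 := by rw [hu]; exact hij
  have hmul : ∀ v : Fin n → K, A.mulVec v = 0 → ∀ i, v i = v i₀ / u i₀ * u i := by
    intro v hv i
    have h1 : A.mulVec (v - (v i₀ / u i₀) • u) = 0 := by
      rw [Matrix.mulVec_sub, Matrix.mulVec_smul, hv, hu, hcol j₀, smul_zero, sub_zero]
    have h2 := hker _ h1 (by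
      rw [Pi.sub_apply, Pi.smul_apply, smul_eq_mul, div_mul_cancel₀ _ hu0, sub_self])
    have h3 := congrFun h2 i
    rw [Pi.sub_apply, Pi.smul_apply, smul_eq_mul, Pi.zero_apply, sub_eq_zero] at h3
    exact h3
  have hc : ∀ i j, A.adjugate i j = A.adjugate i₀ i₀ / u i₀ / u i₀ * (u i * u j) := by
    intro i j
    have h1 := hmul _ (hcol j) i
    have h2 := hmul _ (hcol i₀) j
    rw [h1, hsym i₀ j, h2]
    ring
  refine ⟨u, A.adjugate i₀ i₀ / u i₀ / u i₀, fun h => hu0 (by rw [h]; rfl), fun h => hij ?_, ?_,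
    hc⟩
  · rw [hc, h, zero_mul]
  · rw [hu]
    exact hcol j₀

/-- For a tuple with singular Gram matrix whose first adjugates do not vanish, the tangent vectors
are given by the kernel vector. -/
theorem ttan_ker {G : Matrix (Fin r) (Fin r) K} (hG : ∀ i j, G i j = G j i)
    {x : Fin n → Fin r → ℚ} (h0 : (tgram G x).det = 0) (hadj : (tgram G x).adjugate ≠ 0) :
    ∃ u : Fin n → K, u ≠ 0 ∧ (∀ j, ∑ i, u i * hf G (x i) (x j) = 0) ∧
      ∀ v ∈ ttan G x, ∑ i, ∑ j, u i * u j * hf G (v i) (x j) = 0 := by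
  have hA : (tgram G x).transpose = tgram G x := by
    ext i j
    exact hf_symm hG _ _
  obtain ⟨u, c, hu, hc, hAu, hadj'⟩ := h6tk_adj hA h0 hadj
  refine ⟨u, hu, fun j => ?_, fun v hv => ?_⟩
  · have h1 := congrFun hAu j
    rw [Pi.zero_apply] at h1
    rw [← h1]
    refine Finset.sum_congr rfl fun i _ => ?_
    show u i * hf G (x i) (x j) = hf G (x j) (x i) * u i
    rw [hf_symm hG (x i) (x j), mul_comm]
  · rw [mem_ttan, Matrix.trace] at hv
    have h1 : ∑ i, ((tgram G x).adjugate * dgram G x v).diag i =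
        c * (∑ i, ∑ j, u i * u j * hf G (v i) (x j) + ∑ i, ∑ j, u i * u j * hf G (v i) (x j)) := by
      have e1 : ∑ i, ((tgram G x).adjugate * dgram G x v).diag i =
          ∑ i, ∑ j, c * (u i * u j * hf G (v j) (x i) + u i * u j * hf G (v i) (x j)) := by
        refine Finset.sum_congr rfl fun i _ => ?_
        rw [Matrix.diag_apply, Matrix.mul_apply]
        refine Finset.sum_congr rfl fun j _ => ?_
        rw [hadj' i j]
        show c * (u i * u j) * (hf G (v j) (x i) + hf G (x j) (v i)) = _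
        rw [hf_symm hG (x j) (v i)]
        ring
      have e2 : ∑ i, ∑ j, u i * u j * hf G (v j) (x i) =
          ∑ i, ∑ j, u i * u j * hf G (v i) (x j) := by
        rw [Finset.sum_comm]
        refine Finset.sum_congr rfl fun i _ => Finset.sum_congr rfl fun j _ => ?_
        rw [mul_comm (u j) (u i)]
      rw [e1]
      simp only [← Finset.mul_sum, Finset.sum_add_distrib]
      rw [e2]
    rw [h1] at hv
    have h2 := (mul_eq_zero.1 hv).resolve_left hc
    have h3 : CharZero K := algebraRat.charZero K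
    rw [← two_mul] at h2
    exact (mul_eq_zero.1 h2).resolve_left two_ne_zero

end Pool.Agent.Lib.MP_3550b5_nt.Iso
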